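import Mathlib
import Pool.Agent.Y61.Z.T4
import Pool.Agent.J4H35.SM.Tii

/-! Trivial bounds for the sums over all the moduli. -/

open Finset Filter

namespace Pool.Agent.J4H35.LM

open Pool.Agent.Y826.Z Pool.Agent.Y61.Z

variable {K : ℕ}

lemma ind_nonneg' (P : Prop) : 0 ≤ ind P := by
  unfold ind; split_ifs <;> norm_num

lemma ind_mono {P Q : Prop} (h : P → Q) : ind P ≤ ind Q := by
  unfold ind
  by_cases hP : P
  · rw [if_pos hP, if_pos (h hP)]
  · rw [if_neg hP]; split_ifs <;> norm_num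

/-- the direct terms -/
lemma massA {S : Finset (Fin K → ℕ)} (h : Fin K → ℤ) {x : ℕ} (hx : ∀ j, (x : ℤ) + h j ≠ 0) :
    ∑ q ∈ S, ind (Cd h q x) ≤ ∏ j, tau ((x : ℤ) + h j).natAbs := by
  classical
  have h1 : ∑ q ∈ S, ind (Cd h q x) = ((S.filter (fun q => Cd h q x)).card : ℝ) := by
    rw [card_filter]
    push_cast
    refine sum_congr rfl fun q _ => ?_
    unfold ind
    split_ifs <;> simp
  rw [h1, ← card_dvs]
  exact_mod_cast card_le_card (fun q hq => mem_dvs hx (mem_filter.mp hq).2)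

/-- the mean terms -/
lemma massB {D F : ℕ} {S : Finset (Fin K → ℕ)} (hsf : ∀ q ∈ S, ∀ j, Squarefree (q j))
    (hF : ∀ q ∈ S, ∀ j, q j ≤ F) (h : Fin K → ℤ) {x : ℕ} (hx : ∀ j, (x : ℤ) + h j ≠ 0) :
    ∑ q ∈ S, (1 / (Nat.totient (Pr (ro D q)) : ℝ)) * ind (Cd h (sm D q) x) ≤
      (∏ j, tau ((x : ℤ) + h j).natAbs) * (1 + Real.log F) ^ (2 * K) := by
  classical
  have hP0 : 0 ≤ ∏ j, tau ((x : ℤ) + h j).natAbs := prod_nonneg fun j _ => tau_nonneg _
  have h1 : ∑ q ∈ S, (1 / (Nat.totient (Pr (ro D q)) : ℝ)) * ind (Cd h (sm D q) x) =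
      ∑ q ∈ S.filter (fun q => Cd h (sm D q) x), (1 / (Nat.totient (Pr (ro D q)) : ℝ)) := by
    rw [sum_filter]
    refine sum_congr rfl fun q _ => ?_
    unfold ind
    split_ifs <;> simp
  rw [h1]
  have hropos : ∀ q : Fin K → ℕ, ∀ j, 0 < ro D q j := fun q j => rop_pos _ _
  have h2 : ∀ q ∈ S.filter (fun q => Cd h (sm D q) x),
      (1 / (Nat.totient (Pr (ro D q)) : ℝ)) ≤ ∏ j, (tau (ro D q j) ^ 1 / (ro D q j : ℝ)) := by
    intro q hq
    refine (one_div_totient_le _ (Pr_pos (hropos q))).trans ?_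
    rw [prod_div_distrib]
    simp only [pow_one]
    have e : (Pr (ro D q) : ℝ) = ∏ j, (ro D q j : ℝ) := by unfold Pr; push_cast; rfl
    rw [← e]
    exact div_le_div_of_nonneg_right (tau_prod_le univ _) (Nat.cast_nonneg _)
  refine (sum_le_sum h2).trans ?_
  have h5 : ∑ q ∈ S.filter (fun q => Cd h (sm D q) x), ∏ j, (tau (ro D q j) ^ 1 / (ro D q j : ℝ)) ≤
      ∑ p ∈ dvs h x ×ˢ Fintype.piFinset (fun _ : Fin K => Icc 1 F), ∏ j, (tau (p.2 j) ^ 1 / (p.2 j : ℝ)) := by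
    have hinj : Set.InjOn (fun q => (sm D q, ro D q)) (S.filter (fun q => Cd h (sm D q) x) : Set (Fin K → ℕ)) := by
      intro q1 hq1 q2 hq2 he
      have hq1' := (mem_filter.mp hq1).1
      have hq2' := (mem_filter.mp hq2).1
      simp only [Prod.mk.injEq] at he
      funext j
      rw [← smp_mul_rop (D := D) (hsf q1 hq1' j), ← smp_mul_rop (D := D) (hsf q2 hq2' j)]
      have e1 := congrFun he.1 j
      have e2 := congrFun he.2 j
      unfold sm at e1
      unfold ro at e2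
      rw [e1, e2]
    have h6 := sum_image (s := S.filter (fun q => Cd h (sm D q) x)) (g := fun q => (sm D q, ro D q))
      (f := fun p : (Fin K → ℕ) × (Fin K → ℕ) => ∏ j, (tau (p.2 j) ^ 1 / (p.2 j : ℝ))) hinj
    simp only at h6
    rw [← h6]
    apply sum_le_sum_of_subset_of_nonneg
    · intro p hp
      obtain ⟨q, hq, rfl⟩ := mem_image.mp hp
      obtain ⟨hqS, hqx⟩ := mem_filter.mp hq
      rw [mem_product]
      refine ⟨mem_dvs hx hqx, ?_⟩
      rw [Fintype.mem_piFinset]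
      intro j
      rw [mem_Icc]
      refine ⟨hropos q j, ?_⟩
      refine le_trans ?_ (hF q hqS j)
      apply Nat.le_of_dvd (Nat.pos_of_ne_zero (hsf q hqS j).ne_zero)
      exact ⟨smp D (q j), by rw [mul_comm]; exact (smp_mul_rop (D := D) (hsf q hqS j)).symm⟩
    · intro p _ _
      exact prod_nonneg fun j _ => div_nonneg (pow_nonneg (tau_nonneg _) _) (Nat.cast_nonneg _)
  refine h5.trans ?_
  rw [sum_product]
  simp only [sum_const, nsmul_eq_mul]
  rw [card_dvs]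
  apply mul_le_mul_of_nonneg_left _ hP0
  have h9 := Finset.prod_univ_sum (fun _ : Fin K => Icc 1 F) (fun (_ : Fin K) (y : ℕ) => tau y ^ 1 / (y : ℝ))
  rw [← h9, prod_const, card_univ, Fintype.card_fin, pow_mul]
  exact pow_le_pow_left₀ (sum_nonneg fun y _ => div_nonneg (pow_nonneg (tau_nonneg _) _) (Nat.cast_nonneg _))
    (tau_moment_div 1 F) K

/-- the absolute values at one integer -/
lemma mass {W b D F : ℕ} {S : Finset (Fin K → ℕ)} (hsf : ∀ q ∈ S, ∀ j, Squarefree (q j))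
    (hF : ∀ q ∈ S, ∀ j, q j ≤ F) (h : Fin K → ℤ) {x : ℕ} (hx : ∀ j, (x : ℤ) + h j ≠ 0) :
    ∑ q ∈ S, |dl h W b D q x| ≤ (∏ j, tau ((x : ℤ) + h j).natAbs) * (2 * (1 + Real.log F) ^ (2 * K)) := by
  have hP0 : 0 ≤ ∏ j, tau ((x : ℤ) + h j).natAbs := prod_nonneg fun j _ => tau_nonneg _
  have h1 : ∀ q ∈ S, |dl h W b D q x| ≤ ind (Cd h q x) +
      (1 / (Nat.totient (Pr (ro D q)) : ℝ)) * ind (Cd h (sm D q) x) := by
    intro q _
    unfold dl
    refine (abs_sub _ _).trans ?_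
    rw [abs_mul, abs_of_nonneg (ind_nonneg' _), abs_of_nonneg (ind_nonneg' _),
      abs_of_nonneg (by positivity : (0 : ℝ) ≤ 1 / (Nat.totient (Pr (ro D q)) : ℝ))]
    refine add_le_add (ind_mono fun h => h.2) (mul_le_mul_of_nonneg_left (ind_mono fun h => h.2.1) (by positivity))
  refine (sum_le_sum h1).trans ?_
  rw [sum_add_distrib]
  have h2 := massA (S := S) h hx
  have h3 := massB (D := D) hsf hF h hx
  have h4 : (1 : ℝ) ≤ (1 + Real.log F) ^ (2 * K) := one_le_pow₀ (one_le_one_add_log F)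
  nlinarith [mul_nonneg hP0 (sub_nonneg.2 h4)]

/-- the double sums, in absolute value -/
theorem triv (h : Fin K → ℤ) (W b : ℕ) (a : ℕ) : ∃ C : ℕ, ∀ B : ℕ, ∀ᶠ X : ℝ in atTop,
    ∀ S : Finset (Fin K → ℕ), (∀ q ∈ S, (∀ j, Squarefree (q j)) ∧ ∀ j, (q j : ℝ) ≤ X) →
    ∀ M N : ℕ, X / 16 ≤ (M : ℝ) * N → (M : ℝ) * N ≤ 16 * X →
    ∑ m ∈ Ioc M (2 * M), ∑ n ∈ Ioc N (2 * N), (tau m ^ a * tau n ^ a) *
      ∑ q ∈ S, |dl h W b (D0 X B) q (m * n)| ≤ X * (Real.log X) ^ C := by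
  obtain ⟨C1, hC1⟩ := moment h (2 * a + 3) (by omega)
  obtain ⟨H, hH⟩ : ∃ H, H = ∑ j, (h j).natAbs := ⟨_, rfl⟩
  refine ⟨C1 + 2 * K + 1, fun B => ?_⟩
  filter_upwards [eventually_gt_atTop ((16 : ℝ) * (H + 1)), eventually_ge_atTop (3 : ℝ),
    Real.tendsto_log_atTop.eventually_ge_atTop ((C1 : ℝ) * 128 * 6 ^ C1 * 2 ^ (2 * K)),
    Real.tendsto_log_atTop.eventually_ge_atTop (5 : ℝ)] with X hX1 hX2 hX3 hX4
  intro S hS M N hMN1 hMN2
  have hX0 : 0 < X := by linarith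
  obtain ⟨L, hL⟩ : ∃ L, L = Real.log X := ⟨_, rfl⟩
  rw [← hL] at hX3 hX4 ⊢
  have hL0 : 0 < L := by linarith
  set Y : ℕ := (2 * M) * (2 * N) with hY
  have hYX : (Y : ℝ) ≤ 64 * X := by
    rw [hY]; push_cast; linarith
  obtain ⟨F, hF⟩ : ∃ F, F = ⌊X⌋₊ := ⟨_, rfl⟩
  have hFX : (F : ℝ) ≤ X := by rw [hF]; exact Nat.floor_le hX0.le
  have hF1 : 1 ≤ F := by rw [hF]; exact Nat.le_floor (by push_cast; linarith)
  have hlogF : Real.log F ≤ L := by
    rw [hL]; exact Real.log_le_log (by exact_mod_cast hF1) hFX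
  set G : ℕ → ℝ := fun x => ind (X / 16 ≤ (x : ℝ)) * ∑ q ∈ S, |dl h W b (D0 X B) q x| with hG
  have hG0 : ∀ x, 0 ≤ G x := fun x => mul_nonneg (ind_nonneg' _) (sum_nonneg fun q _ => abs_nonneg _)
  have hG1 : ∀ x, G x ≤ (∏ j, tau ((x : ℤ) + h j).natAbs) * (2 * (1 + L) ^ (2 * K)) := by
    intro x
    have hR0 : 0 ≤ (∏ j, tau ((x : ℤ) + h j).natAbs) * (2 * (1 + L) ^ (2 * K)) :=
      mul_nonneg (prod_nonneg fun j _ => tau_nonneg _) (by positivity)
    by_cases hx : X / 16 ≤ (x : ℝ)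
    · have hx0 : ∀ j, (x : ℤ) + h j ≠ 0 := by
        intro j hj
        have h1 : (h j).natAbs ≤ H := by
          rw [hH]; exact single_le_sum (f := fun j => (h j).natAbs) (fun _ _ => Nat.zero_le _) (mem_univ j)
        have h2 : (x : ℝ) = ((h j).natAbs : ℝ) := by
          have : x = (h j).natAbs := by omega
          exact_mod_cast this
        have h3 : ((h j).natAbs : ℝ) ≤ H := by exact_mod_cast h1
        linarith
      have h1 := mass (W := W) (b := b) (D := D0 X B) (F := F) (S := S) (fun q hq => (hS q hq).1)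
        (fun q hq j => by rw [hF]; exact Nat.le_floor ((hS q hq).2 j)) h hx0
      simp only [hG]
      unfold ind
      rw [if_pos hx, one_mul]
      refine h1.trans ?_
      refine mul_le_mul_of_nonneg_left ?_ (prod_nonneg fun j _ => tau_nonneg _)
      refine mul_le_mul_of_nonneg_left ?_ (by norm_num)
      exact pow_le_pow_left₀ (one_add_log_nonneg F) (by linarith) _
    · simp only [hG]
      unfold ind
      rw [if_neg hx, zero_mul]
      exact hR0
  -- convolution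
  have h1 : ∑ m ∈ Ioc M (2 * M), ∑ n ∈ Ioc N (2 * N), (tau m ^ a * tau n ^ a) *
      ∑ q ∈ S, |dl h W b (D0 X B) q (m * n)| ≤
      ∑ m ∈ Icc 1 (2 * M), ∑ n ∈ Icc 1 (2 * N), tau m * tau n * (tau (m * n) ^ (2 * a) * G (m * n)) := by
    have hsubM : Ioc M (2 * M) ⊆ Icc 1 (2 * M) := by
      intro x hx; rw [mem_Ioc] at hx; rw [mem_Icc]; omega
    have hsubN : Ioc N (2 * N) ⊆ Icc 1 (2 * N) := by
      intro x hx; rw [mem_Ioc] at hx; rw [mem_Icc]; omega
    have hnn : ∀ m n, 0 ≤ tau m * tau n * (tau (m * n) ^ (2 * a) * G (m * n)) := fun m n =>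
      mul_nonneg (mul_nonneg (tau_nonneg _) (tau_nonneg _)) (mul_nonneg (pow_nonneg (tau_nonneg _) _) (hG0 _))
    refine le_trans ?_ (sum_le_sum_of_subset_of_nonneg hsubM fun m _ _ => sum_nonneg fun n _ => hnn m n)
    refine sum_le_sum fun m hm => ?_
    refine le_trans ?_ (sum_le_sum_of_subset_of_nonneg hsubN fun n _ _ => hnn m n)
    refine sum_le_sum fun n hn => ?_
    rw [mem_Ioc] at hm hn
    have hm0 : m ≠ 0 := by omega
    have hn0 : n ≠ 0 := by omega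
    have hmn0 : m * n ≠ 0 := Nat.mul_ne_zero hm0 hn0
    have t1 := one_le_tau hm0
    have t2 := one_le_tau hn0
    have t3 : tau m ≤ tau (m * n) := tau_le_of_dvd (dvd_mul_right _ _) hmn0
    have t4 : tau n ≤ tau (m * n) := tau_le_of_dvd (dvd_mul_left _ _) hmn0
    have hbig : X / 16 ≤ ((m * n : ℕ) : ℝ) := by
      have a1 : (M : ℝ) ≤ m := by exact_mod_cast hm.1.le
      have b1 : (N : ℝ) ≤ n := by exact_mod_cast hn.1.le
      have := mul_le_mul a1 b1 (Nat.cast_nonneg _) ((Nat.cast_nonneg M).trans a1)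
      push_cast
      linarith
    have e1 : G (m * n) = ∑ q ∈ S, |dl h W b (D0 X B) q (m * n)| := by
      simp only [hG]
      unfold ind
      rw [if_pos hbig, one_mul]
    rw [e1]
    have hE0 : 0 ≤ ∑ q ∈ S, |dl h W b (D0 X B) q (m * n)| := sum_nonneg fun q _ => abs_nonneg _
    have h2 : tau m ^ a * tau n ^ a ≤ 1 * 1 * tau (m * n) ^ (2 * a) := by
      rw [one_mul, one_mul, two_mul, pow_add]
      exact mul_le_mul (pow_le_pow_left₀ (tau_nonneg _) t3 a) (pow_le_pow_left₀ (tau_nonneg _) t4 a)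
        (pow_nonneg (tau_nonneg _) _) (pow_nonneg (tau_nonneg _) _)
    calc tau m ^ a * tau n ^ a * ∑ q ∈ S, |dl h W b (D0 X B) q (m * n)|
        ≤ (1 * 1 * tau (m * n) ^ (2 * a)) * ∑ q ∈ S, |dl h W b (D0 X B) q (m * n)| :=
          mul_le_mul_of_nonneg_right h2 hE0
      _ ≤ (tau m * tau n * tau (m * n) ^ (2 * a)) * ∑ q ∈ S, |dl h W b (D0 X B) q (m * n)| := by
          refine mul_le_mul_of_nonneg_right ?_ hE0
          refine mul_le_mul_of_nonneg_right ?_ (pow_nonneg (tau_nonneg _) _)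
          exact mul_le_mul t1 t2 (by norm_num) (by linarith)
      _ = _ := by ring
  refine h1.trans ?_
  refine (conv_le (2 * M) (2 * N) (fun x => tau x ^ (2 * a) * G x)
    (fun x => mul_nonneg (pow_nonneg (tau_nonneg _) _) (hG0 _))).trans ?_
  rw [← hY]
  have h2 : ∑ x ∈ Icc 1 Y, tau x ^ 3 * (tau x ^ (2 * a) * G x) ≤
      ∑ x ∈ Icc 1 Y, (tau x ^ (2 * a + 3) * ∏ j, tau ((x : ℤ) + h j).natAbs ^ (2 * a + 3)) *
        (2 * (1 + L) ^ (2 * K)) +
      ∑ x ∈ Icc 1 Y, (tau x ^ (2 * a + 3) * ∏ j, tau ((x : ℤ) + h j).natAbs ^ (2 * a + 3)) * 0 := by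
    rw [← sum_add_distrib]
    refine sum_le_sum fun x hx => ?_
    rw [mem_Icc] at hx
    have hx0 : x ≠ 0 := by omega
    have h3 : G x ≤ (∏ j, tau ((x : ℤ) + h j).natAbs ^ (2 * a + 3)) * (2 * (1 + L) ^ (2 * K)) := by
      refine (hG1 x).trans ?_
      refine mul_le_mul_of_nonneg_right ?_ (by positivity)
      refine prod_le_prod (fun j _ => tau_nonneg _) fun j _ => ?_
      rcases Nat.eq_zero_or_pos ((x : ℤ) + h j).natAbs with h0 | h0
      · rw [h0, tau_zero]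
        rw [zero_pow (by omega)]
      · have t1 := one_le_tau h0.ne'
        calc tau ((x : ℤ) + h j).natAbs = tau ((x : ℤ) + h j).natAbs ^ 1 := (pow_one _).symm
          _ ≤ _ := pow_le_pow_right₀ t1 (by omega)
    calc tau x ^ 3 * (tau x ^ (2 * a) * G x) = tau x ^ (2 * a + 3) * G x := by ring
      _ ≤ tau x ^ (2 * a + 3) * ((∏ j, tau ((x : ℤ) + h j).natAbs ^ (2 * a + 3)) * (2 * (1 + L) ^ (2 * K))) :=
          mul_le_mul_of_nonneg_left h3 (pow_nonneg (tau_nonneg _) _)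
      _ = _ := by ring
  refine h2.trans ?_
  rw [← sum_mul, ← sum_mul, mul_zero, add_zero]
  rcases Nat.eq_zero_or_pos Y with hY0 | hY0
  · rw [hY0]
    simp only [show Icc 1 0 = (∅ : Finset ℕ) from rfl, sum_empty, zero_mul]
    positivity
  have h3 := hC1 Y hY0
  have hlogY : Real.log Y ≤ 2 * L := by
    have h4 : Real.log Y ≤ Real.log (64 * X) := Real.log_le_log (by exact_mod_cast hY0) hYX
    rw [Real.log_mul (by norm_num) hX0.ne', ← hL] at h4
    have h5 : Real.log 64 ≤ 5 := by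
      have e2 : Real.log 64 = 6 * Real.log 2 := by
        rw [show (64 : ℝ) = 2 ^ 6 by norm_num, Real.log_pow]
        norm_num
      have := Real.log_two_lt_d9
      linarith
    linarith
  have hlogY0 : 0 ≤ Real.log Y := Real.log_natCast_nonneg Y
  calc (∑ x ∈ Icc 1 Y, tau x ^ (2 * a + 3) * ∏ j, tau ((x : ℤ) + h j).natAbs ^ (2 * a + 3)) *
        (2 * (1 + L) ^ (2 * K))
      ≤ (C1 * Y * (1 + Real.log Y) ^ C1) * (2 * (1 + L) ^ (2 * K)) :=
        mul_le_mul_of_nonneg_right h3 (by positivity)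
    _ ≤ (C1 * (64 * X) * (6 * L) ^ C1) * (2 * (2 * L) ^ (2 * K)) := by
        have e1 : (1 + Real.log Y) ^ C1 ≤ (6 * L) ^ C1 := pow_le_pow_left₀ (by linarith) (by linarith) _
        have e2 : (1 + L) ^ (2 * K) ≤ (2 * L) ^ (2 * K) := pow_le_pow_left₀ (by linarith) (by linarith) _
        refine mul_le_mul (mul_le_mul (mul_le_mul_of_nonneg_left hYX (Nat.cast_nonneg _)) e1
          (by positivity) (by positivity)) (mul_le_mul_of_nonneg_left e2 (by norm_num)) (by positivity)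
          (by positivity)
    _ = X * L ^ (C1 + 2 * K) * ((C1 : ℝ) * 128 * 6 ^ C1 * 2 ^ (2 * K)) := by
        rw [mul_pow, mul_pow, pow_add]; ring
    _ ≤ X * L ^ (C1 + 2 * K) * L := by
        refine mul_le_mul_of_nonneg_left hX3 (by positivity)
    _ = X * L ^ (C1 + 2 * K + 1) := by ring

end Pool.Agent.J4H35.LM
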