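import Mathlib
import Pool.Agent.J4H35.LM.A
import Pool.Agent.Y674.ZB.BX
import Pool.Agent.Y895.Z.TI

/-! Blocks: bilinear forms with large coefficients and the weight `Phi`. -/

open Finset Filter

namespace Pool.Agent.J4H35.LM

open Pool.Agent.Y826.Z Pool.Agent.Y61.Z
open Pool.Agent.J4H35.SM (SzS S_TIIS bt)
open Pool.Agent.H378R2 (Phi)

variable {K : ℕ}

/-- the error terms with coefficients -/
noncomputable def EE (h : Fin K → ℤ) (W b D : ℕ) (S : Finset (Fin K → ℕ)) (c : (Fin K → ℕ) → ℝ) (k : ℕ) : ℝ :=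
  ∑ q ∈ S, c q * dl h W b D q k

lemma swapE (h : Fin K → ℤ) (W b D : ℕ) (S : Finset (Fin K → ℕ)) (c : (Fin K → ℕ) → ℝ)
    (I J : Finset ℕ) (α β : ℕ → ℝ) :
    ∑ q ∈ S, c q * ∑ m ∈ I, ∑ n ∈ J, α m * β n * dl h W b D q (m * n) =
      ∑ m ∈ I, ∑ n ∈ J, α m * β n * EE h W b D S c (m * n) := by
  unfold EE
  simp only [mul_sum]
  rw [sum_comm]
  refine sum_congr rfl fun m _ => ?_
  rw [sum_comm]
  refine sum_congr rfl fun n _ => sum_congr rfl fun q _ => ?_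
  ring

lemma abs_EE_le (h : Fin K → ℤ) (W b D : ℕ) (S : Finset (Fin K → ℕ)) (c : (Fin K → ℕ) → ℝ)
    (hc : ∀ q, |c q| ≤ 1) (k : ℕ) : |EE h W b D S c k| ≤ ∑ q ∈ S, |dl h W b D q k| := by
  unfold EE
  refine (abs_sum_le_sum_abs _ _).trans (sum_le_sum fun q _ => ?_)
  rw [abs_mul]
  exact (mul_le_mul_of_nonneg_right (hc q) (abs_nonneg _)).trans_eq (one_mul _)

/-- the truncated coefficient -/
noncomputable def tc (V T : ℝ) (α : ℕ → ℝ) (m : ℕ) : ℝ := if |α m| ≤ V * T then α m / V else 0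

lemma tc_abs {V T : ℝ} (hV : 0 < V) (hT : 0 ≤ T) (α : ℕ → ℝ) (m : ℕ) : |tc V T α m| ≤ T := by
  unfold tc
  split_ifs with h
  · rw [abs_div, abs_of_pos hV, div_le_iff₀ hV, mul_comm]; exact h
  · rw [abs_zero]; exact hT

lemma tc_abs' {V T : ℝ} (hV : 0 < V) (α : ℕ → ℝ) (m : ℕ) : |V * tc V T α m| ≤ |α m| := by
  unfold tc
  split_ifs with h
  · rw [mul_div_cancel₀ _ hV.ne']
  · rw [mul_zero, abs_zero]; exact abs_nonneg _

lemma tc_sub {V T : ℝ} (hV : 0 < V) (hT : 0 < T) (α : ℕ → ℝ) (m : ℕ) :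
    |α m - V * tc V T α m| ≤ |α m| ^ 2 / (V * T) := by
  unfold tc
  split_ifs with h
  · rw [mul_div_cancel₀ _ hV.ne', sub_self, abs_zero]
    positivity
  · rw [mul_zero, sub_zero, le_div_iff₀ (mul_pos hV hT), sq]
    rw [not_le] at h
    exact mul_le_mul_of_nonneg_left h.le (abs_nonneg _)

/-- type II blocks with large coefficients -/
theorem blk2 (hT : S_TII) : ∀ (K : ℕ) (h : Fin K → ℤ) (W b : ℕ), Hyp h W b → ∀ δ : ℝ, 0 < δ → ∀ a : ℕ,
  ∃ ε : ℝ, 0 < ε ∧ ∀ A : ℕ, ∃ B0 : ℕ, ∀ B : ℕ, B0 ≤ B →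
  ∀ᶠ X : ℝ in atTop, ∀ (M N : ℕ) (Q : Fin K → ℝ) (g : Fin K → Fin 5), (∀ j, 0 < Q j) →
    Sz δ X M N (szg Q g 0) (szg Q g 1) (szg Q g 2) (szg Q g 3) (szg Q g 4) →
  ∀ S : Finset (Fin K → ℕ), (∀ q ∈ S, Squarefree (W * Pr q) ∧ (∀ j, Q j < q j ∧ (q j : ℝ) ≤ 2 * Q j) ∧
      (Pr (sm (D0 X B) q) : ℝ) ≤ X ^ ε) → (∀ q ∈ S, (Pr q : ℝ) ≤ X) →
  ∀ c : (Fin K → ℕ) → ℝ, (∀ q, |c q| ≤ 1) →
  ∀ α β : ℕ → ℝ, (∀ m ∈ Ioc M (2 * M), |α m| ≤ (tau m * Real.log X) ^ a) →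
    (∀ n ∈ Ioc N (2 * N), |β n| ≤ (tau n * Real.log X) ^ a) →
    |∑ m ∈ Ioc M (2 * M), ∑ n ∈ Ioc N (2 * N), α m * β n * EE h W b (D0 X B) S c (m * n)| ≤
      X / (Real.log X) ^ A := by
  intro K h W b hyp δ hδ a
  obtain ⟨ε, hε, H⟩ := hT K h W b hyp δ hδ
  obtain ⟨C, hC⟩ := triv h W b (2 * a)
  refine ⟨ε, hε, fun A => ?_⟩
  obtain ⟨A2, hA2⟩ : ∃ A2, A2 = A + C + 3 * a := ⟨_, rfl⟩
  obtain ⟨B0, HB⟩ := H (A + 2 * A2 + 1)
  refine ⟨B0, fun B hB => ?_⟩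
  filter_upwards [HB B hB, hC B, Real.tendsto_log_atTop.eventually_ge_atTop (3 : ℝ),
    eventually_ge_atTop (3 : ℝ)] with X HX HC hL3 hX3
  intro M N Q g hQ hSz S hS hSX c hc α β hα hβ
  have hX0 : 0 < X := by linarith
  obtain ⟨L, hL⟩ : ∃ L, L = Real.log X := ⟨_, rfl⟩
  rw [← hL] at hL3 hα hβ HX HC ⊢
  have hL0 : 0 < L := by linarith
  set V : ℝ := L ^ A2 with hV
  have hV0 : 0 < V := by positivity
  have hS' : ∀ q ∈ S, (∀ j, Squarefree (q j)) ∧ ∀ j, (q j : ℝ) ≤ X := by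
    intro q hq
    have hsf := (hS q hq).1
    refine ⟨fun j => TIa.sf_comp hsf j, fun j => ?_⟩
    refine le_trans ?_ (hSX q hq)
    have h1 : q j ∣ Pr q := dvd_prod_of_mem q (mem_univ j)
    have h2 : Pr q ≠ 0 := by
      intro h0
      rw [h0, mul_zero] at hsf
      exact not_squarefree_zero hsf
    exact_mod_cast Nat.le_of_dvd (Nat.pos_of_ne_zero h2) h1
  set α1 := tc V L α with hα1
  set β1 := tc V L β with hβ1
  set E := EE h W b (D0 X B) S c with hE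
  have hmain : |∑ m ∈ Ioc M (2 * M), ∑ n ∈ Ioc N (2 * N), α1 m * β1 n * E (m * n)| ≤
      X / L ^ (A + 2 * A2 + 1) := by
    rw [hE, ← swapE]
    refine HX M N Q g hQ hSz S hS c hc α1 β1 (fun m hm => ?_) (fun n hn => ?_)
    · refine (tc_abs hV0 hL0.le α m).trans ?_
      rw [mem_Ioc] at hm
      have := one_le_tau (n := m) (by omega)
      nlinarith
    · refine (tc_abs hV0 hL0.le β n).trans ?_
      rw [mem_Ioc] at hn
      have := one_le_tau (n := n) (by omega)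
      nlinarith
  have htr := HC S hS' M N hSz.mn1 hSz.mn2
  -- the remainder
  have hrem : |∑ m ∈ Ioc M (2 * M), ∑ n ∈ Ioc N (2 * N), (α m * β n - V ^ 2 * (α1 m * β1 n)) * E (m * n)| ≤
      2 * L ^ (3 * a) / (V * L) * (X * L ^ C) := by
    refine le_trans ?_ (mul_le_mul_of_nonneg_left htr (by positivity))
    rw [mul_sum]
    refine (abs_sum_le_sum_abs _ _).trans (sum_le_sum fun m hm => ?_)
    rw [mul_sum]
    refine (abs_sum_le_sum_abs _ _).trans (sum_le_sum fun n hn => ?_)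
    have hαm := hα m hm
    have hβn := hβ n hn
    rw [mem_Ioc] at hm hn
    have t1 := one_le_tau (n := m) (by omega)
    have t2 := one_le_tau (n := n) (by omega)
    rw [abs_mul]
    have hE1 : |E (m * n)| ≤ ∑ q ∈ S, |dl h W b (D0 X B) q (m * n)| := abs_EE_le h W b _ S c hc _
    have hE0 : 0 ≤ ∑ q ∈ S, |dl h W b (D0 X B) q (m * n)| := sum_nonneg fun q _ => abs_nonneg _
    have hdec : α m * β n - V ^ 2 * (α1 m * β1 n) =
        (α m - V * α1 m) * β n + (V * α1 m) * (β n - V * β1 n) := by ring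
    have hd1 := tc_sub hV0 hL0 α m
    have hd2 := tc_sub hV0 hL0 β n
    have hd3 := tc_abs' (T := L) hV0 α m
    rw [← hα1] at hd1 hd3
    rw [← hβ1] at hd2
    have hu : |α m| ≤ tau m ^ a * L ^ a := by rw [← mul_pow]; exact hαm
    have hv : |β n| ≤ tau n ^ a * L ^ a := by rw [← mul_pow]; exact hβn
    have hVL : 0 < V * L := mul_pos hV0 hL0
    have p1 : 1 ≤ tau m ^ a := one_le_pow₀ t1
    have p2 : 1 ≤ tau n ^ a := one_le_pow₀ t2
    have hcoef : |α m * β n - V ^ 2 * (α1 m * β1 n)| ≤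
        2 * L ^ (3 * a) / (V * L) * (tau m ^ (2 * a) * tau n ^ (2 * a)) := by
      rw [hdec]
      refine (abs_add_le _ _).trans ?_
      rw [abs_mul, abs_mul (V * α1 m)]
      have q1 : |α m - V * α1 m| * |β n| ≤ |α m| ^ 2 / (V * L) * |β n| :=
        mul_le_mul_of_nonneg_right hd1 (abs_nonneg _)
      have q2 : |V * α1 m| * |β n - V * β1 n| ≤ |α m| * (|β n| ^ 2 / (V * L)) :=
        mul_le_mul hd3 hd2 (abs_nonneg _) (abs_nonneg _)
      have q3 : |α m| ^ 2 * |β n| ≤ L ^ (3 * a) * (tau m ^ (2 * a) * tau n ^ (2 * a)) := by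
        calc |α m| ^ 2 * |β n| ≤ (tau m ^ a * L ^ a) ^ 2 * (tau n ^ a * L ^ a) :=
              mul_le_mul (pow_le_pow_left₀ (abs_nonneg _) hu 2) hv (abs_nonneg _) (by positivity)
          _ = L ^ (3 * a) * (tau m ^ (2 * a) * tau n ^ a) * 1 := by
              rw [mul_pow, ← pow_mul, ← pow_mul, mul_comm a 2, show 3 * a = 2 * a + a by ring, pow_add]; ring
          _ ≤ L ^ (3 * a) * (tau m ^ (2 * a) * tau n ^ a) * tau n ^ a :=
              mul_le_mul_of_nonneg_left p2 (by positivity)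
          _ = _ := by rw [two_mul a, pow_add (tau n)]; ring
      have q4 : |α m| * |β n| ^ 2 ≤ L ^ (3 * a) * (tau m ^ (2 * a) * tau n ^ (2 * a)) := by
        calc |α m| * |β n| ^ 2 ≤ (tau m ^ a * L ^ a) * (tau n ^ a * L ^ a) ^ 2 :=
              mul_le_mul hu (pow_le_pow_left₀ (abs_nonneg _) hv 2) (by positivity) (by positivity)
          _ = L ^ (3 * a) * (tau m ^ a * tau n ^ (2 * a)) * 1 := by
              rw [mul_pow, ← pow_mul, ← pow_mul, mul_comm a 2, show 3 * a = 2 * a + a by ring, pow_add]; ring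
          _ ≤ L ^ (3 * a) * (tau m ^ a * tau n ^ (2 * a)) * tau m ^ a :=
              mul_le_mul_of_nonneg_left p1 (by positivity)
          _ = _ := by rw [two_mul a, pow_add (tau m)]; ring
      calc |α m - V * α1 m| * |β n| + |V * α1 m| * |β n - V * β1 n|
          ≤ |α m| ^ 2 / (V * L) * |β n| + |α m| * (|β n| ^ 2 / (V * L)) := add_le_add q1 q2
        _ = (|α m| ^ 2 * |β n| + |α m| * |β n| ^ 2) / (V * L) := by ring
        _ ≤ (L ^ (3 * a) * (tau m ^ (2 * a) * tau n ^ (2 * a)) +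
            L ^ (3 * a) * (tau m ^ (2 * a) * tau n ^ (2 * a))) / (V * L) :=
            div_le_div_of_nonneg_right (add_le_add q3 q4) hVL.le
        _ = _ := by ring
    calc |α m * β n - V ^ 2 * (α1 m * β1 n)| * |E (m * n)|
        ≤ (2 * L ^ (3 * a) / (V * L) * (tau m ^ (2 * a) * tau n ^ (2 * a))) *
          ∑ q ∈ S, |dl h W b (D0 X B) q (m * n)| := mul_le_mul hcoef hE1 (abs_nonneg _) (by positivity)
      _ = _ := by ring
  have hsplit : ∑ m ∈ Ioc M (2 * M), ∑ n ∈ Ioc N (2 * N), α m * β n * E (m * n) =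
      V ^ 2 * (∑ m ∈ Ioc M (2 * M), ∑ n ∈ Ioc N (2 * N), α1 m * β1 n * E (m * n)) +
      ∑ m ∈ Ioc M (2 * M), ∑ n ∈ Ioc N (2 * N), (α m * β n - V ^ 2 * (α1 m * β1 n)) * E (m * n) := by
    rw [mul_sum, ← sum_add_distrib]
    refine sum_congr rfl fun m _ => ?_
    rw [mul_sum, ← sum_add_distrib]
    refine sum_congr rfl fun n _ => ?_
    ring
  rw [hsplit]
  refine (abs_add_le _ _).trans ?_
  rw [abs_mul, abs_of_pos (pow_pos hV0 2)]
  have f1 : V ^ 2 * |∑ m ∈ Ioc M (2 * M), ∑ n ∈ Ioc N (2 * N), α1 m * β1 n * E (m * n)| ≤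
      X / L ^ A * (1 / L) := by
    refine (mul_le_mul_of_nonneg_left hmain (by positivity)).trans (le_of_eq ?_)
    rw [hV, ← pow_mul, pow_add, pow_add, mul_comm 2 A2]
    field_simp
  have f2 : 2 * L ^ (3 * a) / (V * L) * (X * L ^ C) = X / L ^ A * (2 / L) := by
    rw [hV, hA2, pow_add, pow_add]
    field_simp
  rw [f2] at hrem
  refine (add_le_add f1 hrem).trans ?_
  rw [← mul_add]
  refine mul_le_of_le_one_right (by positivity) ?_
  rw [← add_div, div_le_one hL0]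
  linarith

/-- type II blocks with the weight -/
theorem blk2w (hT : S_TII) : ∀ (K : ℕ) (h : Fin K → ℤ) (W b : ℕ), Hyp h W b → ∀ δ : ℝ, 0 < δ → ∀ a : ℕ,
  ∃ ε : ℝ, 0 < ε ∧ ∀ A : ℕ, ∃ B0 : ℕ, ∀ B : ℕ, B0 ≤ B →
  ∀ᶠ X : ℝ in atTop, ∀ (M N : ℕ) (Q : Fin K → ℝ) (g : Fin K → Fin 5), (∀ j, 0 < Q j) →
    Sz δ X M N (szg Q g 0) (szg Q g 1) (szg Q g 2) (szg Q g 3) (szg Q g 4) →
  ∀ S : Finset (Fin K → ℕ), (∀ q ∈ S, Squarefree (W * Pr q) ∧ (∀ j, Q j < q j ∧ (q j : ℝ) ≤ 2 * Q j) ∧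
      (Pr (sm (D0 X B) q) : ℝ) ≤ X ^ ε) → (∀ q ∈ S, (Pr q : ℝ) ≤ X) →
  ∀ c : (Fin K → ℕ) → ℝ, (∀ q, |c q| ≤ 1) →
  ∀ α β : ℕ → ℝ, (∀ m ∈ Ioc M (2 * M), |α m| ≤ (tau m * Real.log X) ^ a) →
    (∀ n ∈ Ioc N (2 * N), |β n| ≤ (tau n * Real.log X) ^ a) →
    |∑ m ∈ Ioc M (2 * M), ∑ n ∈ Ioc N (2 * N), α m * β n * Phi (((m * n : ℕ) : ℝ) / X) *
      EE h W b (D0 X B) S c (m * n)| ≤ X / (Real.log X) ^ A := by
  intro K h W b hyp δ hδ a
  obtain ⟨ε, hε, H⟩ := blk2 hT K h W b hyp δ hδ a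
  refine ⟨ε, hε, fun A => ?_⟩
  obtain ⟨B0, HB⟩ := H (A + 1)
  refine ⟨B0, fun B hB => ?_⟩
  filter_upwards [HB B hB, Real.tendsto_log_atTop.eventually_ge_atTop (6 : ℝ),
    eventually_ge_atTop (3 : ℝ)] with X HX hL6 hX3
  intro M N Q g hQ hSz S hS hSX c hc α β hα hβ
  have hX0 : 0 < X := by linarith
  have hL0 : 0 < Real.log X := by linarith
  have h1 := Pool.Agent.Y674.ZB.sep hX0 (Ioc M (2 * M)) (Ioc N (2 * N))
    (fun m n => EE h W b (D0 X B) S c (m * n)) α β (X / (Real.log X) ^ (A + 1)) (by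
      intro a' b' ha' hb'
      exact HX M N Q g hQ hSz S hS hSX c hc a' b' (fun m hm => (ha' m).trans (hα m hm))
        (fun n hn => (hb' n).trans (hβ n hn)))
    (fun m hm => by rw [mem_Ioc] at hm; omega) (fun n hn => by rw [mem_Ioc] at hn; omega)
    (fun m hm n hn => Pool.Agent.Y674.ZB.block_log hX0 hSz.mn1 hSz.mn2 hm hn)
  refine h1.trans ?_
  rw [pow_succ, ← div_div, mul_div_assoc', div_le_iff₀ hL0, mul_comm]
  exact mul_le_mul_of_nonneg_left hL6 (by positivity)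

end Pool.Agent.J4H35.LM
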