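import Mathlib
import Pool.Agent.J4H35.LM.B

/-! Blocks with one smooth variable, with the weight `Phi`. -/

open Finset Filter

namespace Pool.Agent.J4H35.LM

open Pool.Agent.Y826.Z Pool.Agent.Y61.Z
open Pool.Agent.J4H35.SM (SzS S_TIIS bt)
open Pool.Agent.H378R2 (Phi)

variable {K : ℕ}

lemma bt_abs (y n : ℕ) : |bt y n| ≤ 1 := by
  unfold Pool.Agent.J4H35.SM.bt
  split_ifs <;> simp

/-- smooth blocks with large coefficients -/
theorem blkS (hT : S_TIIS) : ∀ (K : ℕ) (h : Fin K → ℤ) (W b : ℕ), Hyp h W b → ∀ δ : ℝ, 0 < δ → ∀ a : ℕ,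
  ∃ ε : ℝ, 0 < ε ∧ ∀ A : ℕ, ∃ B0 : ℕ, ∀ B : ℕ, B0 ≤ B →
  ∀ᶠ X : ℝ in atTop, ∀ (M N : ℕ) (Q : Fin K → ℝ) (g : Fin K → Fin 5), (∀ j, g j ≠ 4) → (∀ j, 0 < Q j) →
    SzS δ X M N (szg Q g 0) (szg Q g 1) (szg Q g 2) (szg Q g 3) →
  ∀ S : Finset (Fin K → ℕ), (∀ q ∈ S, Squarefree (W * Pr q) ∧ (∀ j, Q j < q j ∧ (q j : ℝ) ≤ 2 * Q j) ∧
      (Pr (sm (D0 X B) q) : ℝ) ≤ X ^ ε) → (∀ q ∈ S, (Pr q : ℝ) ≤ X) →
  ∀ c : (Fin K → ℕ) → ℝ, (∀ q, |c q| ≤ 1) →
  ∀ α : ℕ → ℝ, (∀ m ∈ Ioc M (2 * M), |α m| ≤ (tau m * Real.log X) ^ a) → ∀ y : ℕ,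
    |∑ m ∈ Ioc M (2 * M), ∑ n ∈ Ioc N (2 * N), α m * bt y n * EE h W b (D0 X B) S c (m * n)| ≤
      X / (Real.log X) ^ A := by
  intro K h W b hyp δ hδ a
  obtain ⟨ε, hε, H⟩ := hT K h W b hyp δ hδ
  obtain ⟨C, hC⟩ := triv h W b (2 * a)
  refine ⟨ε, hε, fun A => ?_⟩
  obtain ⟨A2, hA2⟩ : ∃ A2, A2 = A + C + 2 * a := ⟨_, rfl⟩
  obtain ⟨B0, HB⟩ := H (A + A2 + 1)
  refine ⟨B0, fun B hB => ?_⟩
  filter_upwards [HB B hB, hC B, Real.tendsto_log_atTop.eventually_ge_atTop (3 : ℝ),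
    eventually_ge_atTop (3 : ℝ)] with X HX HC hL3 hX3
  intro M N Q g hg4 hQ hSz S hS hSX c hc α hα y
  have hX0 : 0 < X := by linarith
  obtain ⟨L, hL⟩ : ∃ L, L = Real.log X := ⟨_, rfl⟩
  rw [← hL] at hL3 hα HX HC ⊢
  have hL0 : 0 < L := by linarith
  set V : ℝ := L ^ A2 with hV
  have hV0 : 0 < V := by positivity
  have hS' : ∀ q ∈ S, (∀ j, Squarefree (q j)) ∧ ∀ j, (q j : ℝ) ≤ X := by
    intro q hq
    have hsf := (hS q hq).1
    refine ⟨fun j => TIa.sf_comp hsf j, fun j => ?_⟩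
    refine le_trans ?_ (hSX q hq)
    have h1 : q j ∣ Pr q := dvd_prod_of_mem q (mem_univ j)
    have h2 : Pr q ≠ 0 := by
      intro h0
      rw [h0, mul_zero] at hsf
      exact not_squarefree_zero hsf
    exact_mod_cast Nat.le_of_dvd (Nat.pos_of_ne_zero h2) h1
  set α1 := tc V L α with hα1
  set E := EE h W b (D0 X B) S c with hE
  have hmain : |∑ m ∈ Ioc M (2 * M), ∑ n ∈ Ioc N (2 * N), α1 m * bt y n * E (m * n)| ≤
      X / L ^ (A + A2 + 1) := by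
    rw [hE, ← swapE]
    refine HX M N Q g hg4 hQ hSz S hS c hc α1 (fun m hm => ?_) y
    · refine (tc_abs hV0 hL0.le α m).trans ?_
      rw [mem_Ioc] at hm
      have := one_le_tau (n := m) (by omega)
      nlinarith
  have htr := HC S hS' M N hSz.mn1 hSz.mn2
  -- the remainder
  have hrem : |∑ m ∈ Ioc M (2 * M), ∑ n ∈ Ioc N (2 * N), (α m - V * α1 m) * bt y n * E (m * n)| ≤
      L ^ (2 * a) / (V * L) * (X * L ^ C) := by
    refine le_trans ?_ (mul_le_mul_of_nonneg_left htr (by positivity))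
    rw [mul_sum]
    refine (abs_sum_le_sum_abs _ _).trans (sum_le_sum fun m hm => ?_)
    rw [mul_sum]
    refine (abs_sum_le_sum_abs _ _).trans (sum_le_sum fun n hn => ?_)
    have hαm := hα m hm
    rw [mem_Ioc] at hm hn
    have t1 := one_le_tau (n := m) (by omega)
    have t2 := one_le_tau (n := n) (by omega)
    rw [abs_mul, abs_mul]
    have hE1 : |E (m * n)| ≤ ∑ q ∈ S, |dl h W b (D0 X B) q (m * n)| := abs_EE_le h W b _ S c hc _
    have hE0 : 0 ≤ ∑ q ∈ S, |dl h W b (D0 X B) q (m * n)| := sum_nonneg fun q _ => abs_nonneg _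
    have hd1 := tc_sub hV0 hL0 α m
    rw [← hα1] at hd1
    have hu : |α m| ≤ tau m ^ a * L ^ a := by rw [← mul_pow]; exact hαm
    have hVL : 0 < V * L := mul_pos hV0 hL0
    have p2 : 1 ≤ tau n ^ (2 * a) := one_le_pow₀ t2
    have hcoef : |α m - V * α1 m| * |bt y n| ≤
        L ^ (2 * a) / (V * L) * (tau m ^ (2 * a) * tau n ^ (2 * a)) := by
      calc |α m - V * α1 m| * |bt y n| ≤ |α m| ^ 2 / (V * L) * 1 :=
            mul_le_mul hd1 (bt_abs y n) (abs_nonneg _) (by positivity)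
        _ ≤ (tau m ^ a * L ^ a) ^ 2 / (V * L) * 1 := by
            refine mul_le_mul_of_nonneg_right ?_ (by norm_num)
            exact div_le_div_of_nonneg_right (pow_le_pow_left₀ (abs_nonneg _) hu 2) hVL.le
        _ = L ^ (2 * a) / (V * L) * (tau m ^ (2 * a) * 1) := by
            rw [mul_pow, ← pow_mul, ← pow_mul, mul_comm a 2]; ring
        _ ≤ L ^ (2 * a) / (V * L) * (tau m ^ (2 * a) * tau n ^ (2 * a)) := by
            refine mul_le_mul_of_nonneg_left ?_ (by positivity)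
            exact mul_le_mul_of_nonneg_left p2 (by positivity)
    calc |α m - V * α1 m| * |bt y n| * |E (m * n)|
        ≤ (L ^ (2 * a) / (V * L) * (tau m ^ (2 * a) * tau n ^ (2 * a))) *
          ∑ q ∈ S, |dl h W b (D0 X B) q (m * n)| := mul_le_mul hcoef hE1 (abs_nonneg _) (by positivity)
      _ = _ := by ring
  have hsplit : ∑ m ∈ Ioc M (2 * M), ∑ n ∈ Ioc N (2 * N), α m * bt y n * E (m * n) =
      V * (∑ m ∈ Ioc M (2 * M), ∑ n ∈ Ioc N (2 * N), α1 m * bt y n * E (m * n)) +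
      ∑ m ∈ Ioc M (2 * M), ∑ n ∈ Ioc N (2 * N), (α m - V * α1 m) * bt y n * E (m * n) := by
    rw [mul_sum, ← sum_add_distrib]
    refine sum_congr rfl fun m _ => ?_
    rw [mul_sum, ← sum_add_distrib]
    refine sum_congr rfl fun n _ => ?_
    ring
  rw [hsplit]
  refine (abs_add_le _ _).trans ?_
  rw [abs_mul, abs_of_pos hV0]
  have f1 : V * |∑ m ∈ Ioc M (2 * M), ∑ n ∈ Ioc N (2 * N), α1 m * bt y n * E (m * n)| ≤
      X / L ^ A * (1 / L) := by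
    refine (mul_le_mul_of_nonneg_left hmain (by positivity)).trans (le_of_eq ?_)
    rw [hV, pow_add, pow_add]
    field_simp
  have f2 : L ^ (2 * a) / (V * L) * (X * L ^ C) = X / L ^ A * (1 / L) := by
    rw [hV, hA2, pow_add, pow_add]
    field_simp
  rw [f2] at hrem
  refine (add_le_add f1 hrem).trans ?_
  rw [← mul_add]
  refine mul_le_of_le_one_right (by positivity) ?_
  rw [← add_div, div_le_one hL0]
  linarith

/-- Abel summation over a dyadic interval -/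
lemma abel_dy (F s : ℕ → ℝ) (N : ℕ) :
    ∑ n ∈ Ioc N (2 * N), F n * s n = F (2 * N) * (∑ n ∈ Ioc N (2 * N), bt (2 * N) n * s n) -
      ∑ l ∈ Ico (N + 1) (2 * N), (F (l + 1) - F l) * (∑ n ∈ Ioc N (2 * N), bt l n * s n) := by
  have h1 : ∀ n ∈ Ioc N (2 * N), F n = F (2 * N) - ∑ l ∈ Ico (N + 1) (2 * N), bt l n * (F (l + 1) - F l) := by
    intro n hn
    rw [mem_Ioc] at hn
    have h2 : ∑ l ∈ Ico (N + 1) (2 * N), bt l n * (F (l + 1) - F l) =
        ∑ l ∈ Ico n (2 * N), (F (l + 1) - F l) := by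
      have hsub : Ico n (2 * N) ⊆ Ico (N + 1) (2 * N) := Ico_subset_Ico (by omega) le_rfl
      rw [← sum_subset hsub]
      · refine sum_congr rfl fun l hl => ?_
        rw [mem_Ico] at hl
        unfold Pool.Agent.J4H35.SM.bt
        rw [if_pos hl.1, one_mul]
      · intro l hl hl2
        rw [mem_Ico] at hl hl2
        unfold Pool.Agent.J4H35.SM.bt
        rw [if_neg (by omega), zero_mul]
    rw [h2, sum_Ico_sub F hn.2]
    ring
  have h3 : ∀ n ∈ Ioc N (2 * N), bt (2 * N) n * s n = s n := by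
    intro n hn
    rw [mem_Ioc] at hn
    unfold Pool.Agent.J4H35.SM.bt
    rw [if_pos hn.2, one_mul]
  have h4 : ∑ n ∈ Ioc N (2 * N), F n * s n = ∑ n ∈ Ioc N (2 * N),
      (F (2 * N) - ∑ l ∈ Ico (N + 1) (2 * N), bt l n * (F (l + 1) - F l)) * s n :=
    sum_congr rfl fun n hn => by rw [← h1 n hn]
  rw [sum_congr rfl h3, h4]
  simp only [sub_mul, sum_sub_distrib, mul_sum, sum_mul]
  congr 1
  rw [sum_comm]
  rw [← sum_sub_distrib]
  refine sum_congr rfl fun l _ => ?_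
  rw [← sum_sub_distrib]
  refine sum_congr rfl fun n _ => ?_
  ring

/-- the variation of the weight -/
lemma F_var (f : ℕ → ℝ) (hf : (∀ l, f l = 1) ∨ ∀ l, f l = Real.log l) {X : ℝ} (hX : 0 < X)
    {m : ℕ} (hm : 1 ≤ m) {N l : ℕ} (hN : 1 ≤ N) (hl : l ∈ Ico (N + 1) (2 * N)) :
    |f (l + 1) * Phi (((m * (l + 1) : ℕ) : ℝ) / X) - f l * Phi (((m * l : ℕ) : ℝ) / X)| ≤
      (2 + Real.log (2 * N : ℕ)) / N := by
  rw [mem_Ico] at hl
  have hl0 : 0 < l := by omega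
  have hlr : (0 : ℝ) < l := by exact_mod_cast hl0
  have hlr1 : (0 : ℝ) < ((l + 1 : ℕ) : ℝ) := by exact_mod_cast Nat.succ_pos l
  have hmr : (0 : ℝ) < m := by exact_mod_cast hm
  have hNr : (0 : ℝ) < N := by exact_mod_cast hN
  have hlogN : 0 ≤ Real.log (2 * N : ℕ) := Real.log_natCast_nonneg _
  have hdl : Real.log ((l + 1 : ℕ) : ℝ) - Real.log l ≤ 1 / N := by
    rw [← Real.log_div hlr1.ne' hlr.ne']
    have h1 : ((l + 1 : ℕ) : ℝ) / l = 1 + 1 / l := by push_cast; field_simp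
    rw [h1]
    have h2 := Real.log_le_sub_one_of_pos (show (0 : ℝ) < 1 + 1 / l by positivity)
    have h3 : (1 : ℝ) / l ≤ 1 / N := by
      apply one_div_le_one_div_of_le hNr
      exact_mod_cast (by omega : N ≤ l)
    linarith
  have hdl0 : 0 ≤ Real.log ((l + 1 : ℕ) : ℝ) - Real.log l :=
    sub_nonneg.2 (Real.log_le_log hlr (by exact_mod_cast Nat.le_succ l))
  have hdiff : Real.log (((m * (l + 1) : ℕ) : ℝ) / X) -
      Real.log (((m * l : ℕ) : ℝ) / X) = Real.log ((l + 1 : ℕ) : ℝ) - Real.log l := by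
    rw [Nat.cast_mul, Nat.cast_mul, Real.log_div (by positivity) hX.ne',
      Real.log_div (by positivity) hX.ne', Real.log_mul hmr.ne' hlr1.ne',
      Real.log_mul hmr.ne' hlr.ne']
    ring
  have e : f (l + 1) * Phi (((m * (l + 1) : ℕ) : ℝ) / X) - f l * Phi (((m * l : ℕ) : ℝ) / X) =
      f (l + 1) * (Phi (((m * (l + 1) : ℕ) : ℝ) / X) - Phi (((m * l : ℕ) : ℝ) / X)) +
        Phi (((m * l : ℕ) : ℝ) / X) * (f (l + 1) - f l) := by ring
  have h1 : |Phi (((m * (l + 1) : ℕ) : ℝ) / X) - Phi (((m * l : ℕ) : ℝ) / X)| ≤ 1 / N := by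
    refine (TIa.Phi_lip _ _).trans ?_
    rw [hdiff, abs_of_nonneg hdl0]
    exact hdl
  have h2 : |f (l + 1) - f l| ≤ 1 / N := by
    rcases hf with hf | hf
    · rw [hf, hf, sub_self, abs_zero]; positivity
    · rw [hf, hf, abs_of_nonneg hdl0]; exact hdl
  have h3 : |Phi (((m * l : ℕ) : ℝ) / X)| ≤ 1 := by
    rw [abs_of_nonneg (TIa.Phi_nonneg _)]
    exact (TIa.Phi_le _).trans (by norm_num)
  have h4 : |f (l + 1)| ≤ 1 + Real.log (2 * N : ℕ) := by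
    rcases hf with hf | hf
    · rw [hf, abs_one]; linarith
    · rw [hf, abs_of_nonneg (Real.log_natCast_nonneg _)]
      have : Real.log ((l + 1 : ℕ) : ℝ) ≤ Real.log (2 * N : ℕ) :=
        Real.log_le_log hlr1 (by exact_mod_cast (by omega : l + 1 ≤ 2 * N))
      linarith
  rw [e]
  refine (abs_add_le _ _).trans ?_
  rw [abs_mul, abs_mul]
  calc |f (l + 1)| * |Phi (((m * (l + 1) : ℕ) : ℝ) / X) - Phi (((m * l : ℕ) : ℝ) / X)| +
      |Phi (((m * l : ℕ) : ℝ) / X)| * |f (l + 1) - f l| ≤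
      (1 + Real.log (2 * N : ℕ)) * (1 / N) + 1 * (1 / N) :=
        add_le_add (mul_le_mul h4 h1 (abs_nonneg _) (by linarith))
          (mul_le_mul h3 h2 (abs_nonneg _) (by norm_num))
    _ = _ := by ring

/-- smooth blocks with the weight -/
theorem blkSw (hT : S_TIIS) : ∀ (K : ℕ) (h : Fin K → ℤ) (W b : ℕ), Hyp h W b → ∀ δ : ℝ, 0 < δ → ∀ a : ℕ,
  ∃ ε : ℝ, 0 < ε ∧ ∀ A : ℕ, ∃ B0 : ℕ, ∀ B : ℕ, B0 ≤ B →
  ∀ᶠ X : ℝ in atTop, ∀ (M N : ℕ) (Q : Fin K → ℝ) (g : Fin K → Fin 5), (∀ j, g j ≠ 4) → (∀ j, 0 < Q j) →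
    SzS δ X M N (szg Q g 0) (szg Q g 1) (szg Q g 2) (szg Q g 3) →
  ∀ S : Finset (Fin K → ℕ), (∀ q ∈ S, Squarefree (W * Pr q) ∧ (∀ j, Q j < q j ∧ (q j : ℝ) ≤ 2 * Q j) ∧
      (Pr (sm (D0 X B) q) : ℝ) ≤ X ^ ε) → (∀ q ∈ S, (Pr q : ℝ) ≤ X) →
  ∀ c : (Fin K → ℕ) → ℝ, (∀ q, |c q| ≤ 1) →
  ∀ α : ℕ → ℝ, (∀ m ∈ Ioc M (2 * M), |α m| ≤ (tau m * Real.log X) ^ a) →
  ∀ f : ℕ → ℝ, ((∀ l, f l = 1) ∨ ∀ l, f l = Real.log l) →
    |∑ m ∈ Ioc M (2 * M), ∑ n ∈ Ioc N (2 * N), α m * f n * Phi (((m * n : ℕ) : ℝ) / X) *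
      EE h W b (D0 X B) S c (m * n)| ≤ X / (Real.log X) ^ A := by
  intro K h W b hyp δ hδ a
  obtain ⟨ε, hε, H⟩ := blkS hT K h W b hyp δ hδ a
  refine ⟨ε, hε, fun A => ?_⟩
  obtain ⟨B0, HB⟩ := H (A + 2)
  refine ⟨B0, fun B hB => ?_⟩
  have hev : ∀ᶠ X : ℝ in atTop, 32 * X ^ (1 / 2 : ℝ) ≤ X := by
    have h1 := (tendsto_rpow_atTop (show (0 : ℝ) < 1 / 2 by norm_num)).eventually_ge_atTop 32
    filter_upwards [h1, eventually_gt_atTop 0] with X h1 h2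
    calc 32 * X ^ (1 / 2 : ℝ) ≤ X ^ (1 / 2 : ℝ) * X ^ (1 / 2 : ℝ) :=
          mul_le_mul_of_nonneg_right h1 (by positivity)
      _ = X := by rw [← Real.rpow_add h2]; norm_num
  filter_upwards [HB B hB, Real.tendsto_log_atTop.eventually_ge_atTop (9 : ℝ),
    eventually_ge_atTop (3 : ℝ), hev] with X HX hL6 hX3 hX4
  intro M N Q g hg4 hQ hSz S hS hSX c hc α hα f hf
  have hX0 : 0 < X := by linarith
  have hX1 : 1 ≤ X := by linarith
  obtain ⟨L, hL⟩ : ∃ L, L = Real.log X := ⟨_, rfl⟩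
  rw [← hL] at hL6 hα HX ⊢
  have hL0 : 0 < L := by linarith
  have hN1 : 1 ≤ N := by
    have h1 : (1 : ℝ) ≤ N := (Real.one_le_rpow hX1 (by norm_num)).trans hSz.n1
    exact_mod_cast h1
  have hNr : (0 : ℝ) < N := by exact_mod_cast hN1
  have hlogN : Real.log (2 * N : ℕ) ≤ L := by
    rw [hL]
    refine Real.log_le_log (by positivity) ?_
    push_cast
    have := hSz.n2
    linarith
  have hlogN0 : 0 ≤ Real.log (2 * N : ℕ) := Real.log_natCast_nonneg _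
  set E := EE h W b (D0 X B) S c with hE
  obtain ⟨T, hT⟩ : ∃ T, T = X / L ^ (A + 2) := ⟨_, rfl⟩
  rw [← hT] at HX
  have hT0 : 0 ≤ T := by rw [hT]; positivity
  -- one step
  have hone : ∀ (r : ℝ), 0 < r → ∀ ρ : ℕ → ℝ, (∀ m ∈ Ioc M (2 * M), |ρ m| ≤ r) → ∀ y : ℕ,
      |∑ m ∈ Ioc M (2 * M), α m * (ρ m * ∑ n ∈ Ioc N (2 * N), bt y n * E (m * n))| ≤ r * T := by
    intro r hr ρ hρ y
    have h1 := HX M N Q g hg4 hQ hSz S hS hSX c hc (fun m => α m * (ρ m / r)) (fun m hm => by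
      rw [abs_mul]
      refine le_trans ?_ (hα m hm)
      refine mul_le_of_le_one_right (abs_nonneg _) ?_
      rw [abs_div, abs_of_pos hr, div_le_one hr]
      exact hρ m hm) y
    have h2 : ∑ m ∈ Ioc M (2 * M), α m * (ρ m * ∑ n ∈ Ioc N (2 * N), bt y n * E (m * n)) =
        r * ∑ m ∈ Ioc M (2 * M), ∑ n ∈ Ioc N (2 * N), α m * (ρ m / r) * bt y n * E (m * n) := by
      rw [mul_sum]
      refine sum_congr rfl fun m _ => ?_
      rw [mul_sum, mul_sum, mul_sum]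
      refine sum_congr rfl fun n _ => ?_
      field_simp
    rw [h2, abs_mul, abs_of_pos hr]
    exact mul_le_mul_of_nonneg_left h1 hr.le
  have hdec : ∑ m ∈ Ioc M (2 * M), ∑ n ∈ Ioc N (2 * N), α m * f n * Phi (((m * n : ℕ) : ℝ) / X) *
      E (m * n) =
      ∑ m ∈ Ioc M (2 * M), α m * ((f (2 * N) * Phi (((m * (2 * N) : ℕ) : ℝ) / X)) *
        ∑ n ∈ Ioc N (2 * N), bt (2 * N) n * E (m * n)) -
      ∑ l ∈ Ico (N + 1) (2 * N), ∑ m ∈ Ioc M (2 * M), α m *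
        ((f (l + 1) * Phi (((m * (l + 1) : ℕ) : ℝ) / X) - f l * Phi (((m * l : ℕ) : ℝ) / X)) *
        ∑ n ∈ Ioc N (2 * N), bt l n * E (m * n)) := by
    rw [sum_comm (s := Ico (N + 1) (2 * N)), ← sum_sub_distrib]
    refine sum_congr rfl fun m _ => ?_
    have h1 := abel_dy (fun n => f n * Phi (((m * n : ℕ) : ℝ) / X)) (fun n => E (m * n)) N
    calc ∑ n ∈ Ioc N (2 * N), α m * f n * Phi (((m * n : ℕ) : ℝ) / X) * E (m * n)
        = α m * ∑ n ∈ Ioc N (2 * N), (f n * Phi (((m * n : ℕ) : ℝ) / X)) * E (m * n) := by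
          rw [mul_sum]; refine sum_congr rfl fun n _ => ?_; ring
      _ = _ := by
          rw [h1, mul_sub]
          congr 1
          rw [mul_sum]
  rw [hdec]
  refine (abs_sub _ _).trans ?_
  have b1 : |∑ m ∈ Ioc M (2 * M), α m * ((f (2 * N) * Phi (((m * (2 * N) : ℕ) : ℝ) / X)) *
        ∑ n ∈ Ioc N (2 * N), bt (2 * N) n * E (m * n))| ≤ (2 * L) * T := by
    refine hone (2 * L) (by linarith) _ (fun m _ => ?_) (2 * N)
    rw [abs_mul]
    have h3 : |Phi (((m * (2 * N) : ℕ) : ℝ) / X)| ≤ 1 := by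
      rw [abs_of_nonneg (TIa.Phi_nonneg _)]
      exact (TIa.Phi_le _).trans (by norm_num)
    have h4 : |f (2 * N)| ≤ 2 * L := by
      rcases hf with hf | hf
      · rw [hf, abs_one]; linarith
      · rw [hf, abs_of_nonneg (Real.log_natCast_nonneg _)]; linarith
    calc _ ≤ (2 * L) * 1 := mul_le_mul h4 h3 (abs_nonneg _) (by linarith)
      _ = 2 * L := mul_one _
  have b2 : |∑ l ∈ Ico (N + 1) (2 * N), ∑ m ∈ Ioc M (2 * M), α m *
        ((f (l + 1) * Phi (((m * (l + 1) : ℕ) : ℝ) / X) - f l * Phi (((m * l : ℕ) : ℝ) / X)) *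
        ∑ n ∈ Ioc N (2 * N), bt l n * E (m * n))| ≤ (2 * L) * T := by
    refine (abs_sum_le_sum_abs _ _).trans ?_
    have h1 : ∀ l ∈ Ico (N + 1) (2 * N), |∑ m ∈ Ioc M (2 * M), α m *
        ((f (l + 1) * Phi (((m * (l + 1) : ℕ) : ℝ) / X) - f l * Phi (((m * l : ℕ) : ℝ) / X)) *
        ∑ n ∈ Ioc N (2 * N), bt l n * E (m * n))| ≤ (2 * L / N) * T := by
      intro l hl
      refine hone (2 * L / N) (by positivity) _ (fun m hm => ?_) l
      rw [mem_Ioc] at hm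
      refine (F_var f hf hX0 (by omega) hN1 hl).trans ?_
      refine div_le_div_of_nonneg_right ?_ hNr.le
      linarith
    refine (sum_le_sum h1).trans ?_
    rw [sum_const, nsmul_eq_mul, Nat.card_Ico]
    have h2 : ((2 * N - (N + 1) : ℕ) : ℝ) ≤ N := by exact_mod_cast (by omega : 2 * N - (N + 1) ≤ N)
    calc ((2 * N - (N + 1) : ℕ) : ℝ) * (2 * L / N * T) ≤ N * (2 * L / N * T) :=
          mul_le_mul_of_nonneg_right h2 (by positivity)
      _ = 2 * L * T := by field_simp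
  refine (add_le_add b1 b2).trans ?_
  calc 2 * L * T + 2 * L * T = (4 / L) * (X / L ^ A) := by
        rw [hT, pow_add]; field_simp; ring
    _ ≤ 1 * (X / L ^ A) := by
        refine mul_le_mul_of_nonneg_right ?_ (by positivity)
        rw [div_le_one hL0]; linarith
    _ = _ := one_mul _

end Pool.Agent.J4H35.LM
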