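import Mathlib
import Pool.Agent.J4H35.LM.B

/-! One very long smooth variable. -/

open Finset Filter

namespace Pool.Agent.J4H35.LM

open Pool.Agent.Y826.Z Pool.Agent.Y61.Z
open Pool.Agent.H378R2 (Phi)

variable {K : ℕ}

lemma ev_long (K a : ℕ) : ∀ᶠ X : ℝ in atTop,
    X ^ (14 / 25 : ℝ) * (1 + Real.log (X ^ (14 / 25 : ℝ))) ^ K *
      ((Real.log X) ^ a * (X ^ (2 / 5 : ℝ) * (1 + Real.log (X ^ (2 / 5 : ℝ))) ^ (2 ^ a)) *
        (8 * (2 + Real.log (16 * X)) ^ 2)) ≤ X ^ (99 / 100 : ℝ) := by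
  have h1 := (isLittleO_log_rpow_rpow_atTop ((K:ℝ) + (a + 2 ^ a + 2 : ℕ)) (show (0:ℝ) < 3 / 100 by norm_num)).bound
    (show (0:ℝ) < 1 / (300 * 2 ^ K * 2 ^ (2 ^ a)) by positivity)
  filter_upwards [h1, eventually_ge_atTop (4:ℝ)] with X hX hX4
  have hX0 : 0 < X := by linarith
  have hX1 : 1 ≤ X := by linarith
  have hlog1 : 1 ≤ Real.log X := by
    rw [← Real.log_exp 1]
    refine Real.log_le_log (Real.exp_pos 1) ?_
    have := Real.exp_one_lt_d9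
    linarith
  have hlog0 : 0 < Real.log X := by linarith
  set Lx := Real.log X with hL
  rw [Real.norm_of_nonneg (Real.rpow_nonneg hlog0.le _),
    Real.norm_of_nonneg (Real.rpow_nonneg hX0.le _)] at hX
  have e0 : Lx ^ ((K:ℝ) + (a + 2 ^ a + 2 : ℕ)) = Lx ^ (K + (a + 2 ^ a + 2)) := by
    rw [← Real.rpow_natCast]
    push_cast
    rfl
  rw [e0] at hX
  have hlog2 : Real.log 16 ≤ 3 := by
    have h2 : Real.log 16 = 4 * Real.log 2 := by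
      rw [show (16:ℝ) = 2 ^ 4 by norm_num, Real.log_pow]; norm_num
    have := Real.log_two_lt_d9; linarith
  have b1 : 1 + Real.log (X ^ (14 / 25 : ℝ)) ≤ 2 * Lx := by
    rw [Real.log_rpow hX0]; linarith
  have b1' : 0 ≤ 1 + Real.log (X ^ (14 / 25 : ℝ)) := by
    rw [Real.log_rpow hX0]; positivity
  have b2 : 1 + Real.log (X ^ (2 / 5 : ℝ)) ≤ 2 * Lx := by
    rw [Real.log_rpow hX0]
    linarith
  have b2' : 0 ≤ 1 + Real.log (X ^ (2 / 5 : ℝ)) := by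
    rw [Real.log_rpow hX0]
    positivity
  have b3 : 2 + Real.log (16 * X) ≤ 6 * Lx := by
    rw [Real.log_mul (by norm_num) hX0.ne']
    linarith
  have b3' : 0 ≤ 2 + Real.log (16 * X) := by
    have : 0 ≤ Real.log (16:ℝ) := Real.log_nonneg (by norm_num)
    rw [Real.log_mul (by norm_num) hX0.ne']
    positivity
  have hp1 : 0 < X ^ (14 / 25 : ℝ) := Real.rpow_pos_of_pos hX0 _
  have hp2 : 0 < X ^ (2 / 5 : ℝ) := Real.rpow_pos_of_pos hX0 _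
  calc X ^ (14 / 25 : ℝ) * (1 + Real.log (X ^ (14 / 25 : ℝ))) ^ K *
      (Lx ^ a * (X ^ (2 / 5 : ℝ) * (1 + Real.log (X ^ (2 / 5 : ℝ))) ^ (2 ^ a)) *
        (8 * (2 + Real.log (16 * X)) ^ 2)) ≤
      X ^ (14 / 25 : ℝ) * (2 * Lx) ^ K *
      (Lx ^ a * (X ^ (2 / 5 : ℝ) * (2 * Lx) ^ (2 ^ a)) * (8 * (6 * Lx) ^ 2)) := by gcongr
    _ = X ^ (14 / 25 : ℝ) * X ^ (2 / 5 : ℝ) * ((288 * 2 ^ K * 2 ^ (2 ^ a)) * Lx ^ (K + (a + 2 ^ a + 2))) := by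
      rw [mul_pow, mul_pow, pow_add, pow_add, pow_add]; ring
    _ ≤ X ^ (14 / 25 : ℝ) * X ^ (2 / 5 : ℝ) * ((288 * 2 ^ K * 2 ^ (2 ^ a)) *
        (1 / (300 * 2 ^ K * 2 ^ (2 ^ a)) * X ^ (3 / 100 : ℝ))) := by gcongr
    _ = (288 / 300) * (X ^ (14 / 25 : ℝ) * X ^ (2 / 5 : ℝ) * X ^ (3 / 100 : ℝ)) := by
      field_simp
    _ ≤ 1 * (X ^ (14 / 25 : ℝ) * X ^ (2 / 5 : ℝ) * X ^ (3 / 100 : ℝ)) := by
      refine mul_le_mul_of_nonneg_right (by norm_num) (by positivity)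
    _ = X ^ (14 / 25 + 2 / 5 + 3 / 100 : ℝ) := by
      rw [one_mul, Real.rpow_add hX0, Real.rpow_add hX0]
    _ ≤ X ^ (99 / 100 : ℝ) := Real.rpow_le_rpow_of_exponent_le hX1 (by norm_num)

theorem long : ∀ (K : ℕ) (h : Fin K → ℤ) (W b : ℕ), Hyp h W b → ∀ a B : ℕ,
  ∀ᶠ X : ℝ in atTop, ∀ S : Finset (Fin K → ℕ),
    (∀ q ∈ S, Squarefree (W * Pr q) ∧ (Pr q : ℝ) ≤ X ^ (14 / 25 : ℝ)) →
  ∀ c : (Fin K → ℕ) → ℝ, (∀ q, |c q| ≤ 1) → ∀ M1 N : ℕ, (M1 : ℝ) ≤ X ^ (2 / 5 : ℝ) → (N : ℝ) ≤ 8 * X →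
  ∀ α : ℕ → ℝ, (∀ m ∈ Icc 1 M1, |α m| ≤ (tau m * Real.log X) ^ a) →
  ∀ f : ℕ → ℝ, ((∀ l, f l = 1) ∨ ∀ l, f l = Real.log l) →
    |∑ m ∈ Icc 1 M1, ∑ n ∈ Ioc N (2 * N), α m * f n * Phi (((m * n : ℕ) : ℝ) / X) *
      EE h W b (D0 X B) S c (m * n)| ≤ X ^ (99 / 100 : ℝ) := by
  intro K h W b H a B
  filter_upwards [ev_long K a, eventually_ge_atTop (4 : ℝ)] with X hfin hX4 S hS c hc M1 N hM1 hN α hα f hf
  have hX0 : 0 < X := by linarith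
  have hX1 : 1 ≤ X := by linarith
  have hlogX : 0 ≤ Real.log X := Real.log_nonneg hX1
  have hlog2X : 0 ≤ Real.log (16 * X) := Real.log_nonneg (by linarith)
  have hlogle : ∀ Z : ℕ, (Z : ℝ) ≤ 16 * X → Real.log Z ≤ Real.log (16 * X) := by
    intro Z hZ
    rcases Nat.eq_zero_or_pos Z with h0 | h0
    · rw [h0, Nat.cast_zero, Real.log_zero]; exact hlog2X
    · exact Real.log_le_log (by exact_mod_cast h0) hZ
  have hL : ∀ q ∈ S, ∀ m ∈ Icc 1 M1, |∑ n ∈ Ioc N (2 * N),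
      f n * Phi (((m * n : ℕ) : ℝ) / X) * dl h W b (D0 X B) q (m * n)| ≤
        8 * (2 + Real.log (16 * X)) ^ 2 := by
    intro q hq m hm
    rw [mem_Icc] at hm
    have key : ∀ Z : ℕ, (Z : ℝ) ≤ 16 * X → |∑ n ∈ Icc 1 Z,
        f n * Phi (((m * n : ℕ) : ℝ) / X) * dl h W b (D0 X B) q (m * n)| ≤
        4 * (2 + Real.log (16 * X)) ^ 2 := by
      intro Z hZ
      refine (TIa.weight_sum f hf X hX0 m hm.1 Z (fun l => dl h W b (D0 X B) q (m * l))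
        (fun y => TIa.dl_sum H (D0 X B) q (hS q hq).1 m y)).trans ?_
      have h3 := hlogle Z hZ
      have h4 : 0 ≤ Real.log (Z : ℝ) := Real.log_natCast_nonneg _
      gcongr
    have h1 := key (2 * N) (by push_cast; linarith)
    have h2 := key N (by linarith)
    have h3 : ∑ n ∈ Ioc N (2 * N), f n * Phi (((m * n : ℕ) : ℝ) / X) * dl h W b (D0 X B) q (m * n) =
        ∑ n ∈ Icc 1 (2 * N), f n * Phi (((m * n : ℕ) : ℝ) / X) * dl h W b (D0 X B) q (m * n) -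
        ∑ n ∈ Icc 1 N, f n * Phi (((m * n : ℕ) : ℝ) / X) * dl h W b (D0 X B) q (m * n) := by
      rw [TIa.Icc_eq, TIa.Icc_eq, ← sum_Ioc_consecutive _ (Nat.zero_le N) (by omega : N ≤ 2 * N)]
      ring
    rw [h3]
    refine (abs_sub _ _).trans ?_
    linarith
  have hD : ∑ m ∈ Icc 1 M1, tau m ^ a ≤ X ^ (2 / 5 : ℝ) * (1 + Real.log (X ^ (2 / 5 : ℝ))) ^ (2 ^ a) := by
    refine (tau_moment a M1).trans ?_
    have hp2 : 1 ≤ X ^ (2 / 5 : ℝ) := Real.one_le_rpow hX1 (by norm_num)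
    have h1 : Real.log M1 ≤ Real.log (X ^ (2 / 5 : ℝ)) := by
      rcases Nat.eq_zero_or_pos M1 with h0 | h0
      · subst h0
        simp only [Nat.cast_zero, Real.log_zero]
        exact Real.log_nonneg hp2
      · exact Real.log_le_log (by exact_mod_cast h0) hM1
    have h2 : 0 ≤ Real.log M1 := Real.log_natCast_nonneg M1
    gcongr
  obtain ⟨Z, hZ⟩ : ∃ Z, Z = (Real.log X) ^ a * (X ^ (2 / 5 : ℝ) * (1 + Real.log (X ^ (2 / 5 : ℝ))) ^ (2 ^ a)) *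
        (8 * (2 + Real.log (16 * X)) ^ 2) := ⟨_, rfl⟩
  have hZ0 : 0 ≤ Z := by
    have hp2 : 1 ≤ X ^ (2 / 5 : ℝ) := Real.one_le_rpow hX1 (by norm_num)
    have : 0 ≤ Real.log (X ^ (2 / 5 : ℝ)) := Real.log_nonneg hp2
    rw [hZ]
    positivity
  have hq : ∀ q ∈ S, |∑ m ∈ Icc 1 M1, α m * ∑ n ∈ Ioc N (2 * N),
      f n * Phi (((m * n : ℕ) : ℝ) / X) * dl h W b (D0 X B) q (m * n)| ≤ Z := by
    intro q hq
    refine (abs_sum_le_sum_abs _ _).trans ?_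
    calc ∑ m ∈ Icc 1 M1, |α m * ∑ n ∈ Ioc N (2 * N),
        f n * Phi (((m * n : ℕ) : ℝ) / X) * dl h W b (D0 X B) q (m * n)| ≤
        ∑ m ∈ Icc 1 M1, ((Real.log X) ^ a * tau m ^ a) * (8 * (2 + Real.log (16 * X)) ^ 2) := by
          refine sum_le_sum fun m hm => ?_
          rw [abs_mul]
          have h1 := hα m hm
          rw [mul_pow, mul_comm] at h1
          exact mul_le_mul h1 (hL q hq m hm) (abs_nonneg _)
            (mul_nonneg (pow_nonneg hlogX _) (pow_nonneg (tau_nonneg _) _))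
      _ = ((Real.log X) ^ a * ∑ m ∈ Icc 1 M1, tau m ^ a) * (8 * (2 + Real.log (16 * X)) ^ 2) := by
          rw [← sum_mul, ← mul_sum]
      _ ≤ Z := by
          rw [hZ]
          gcongr
  have hYpos : 1 ≤ X ^ (14 / 25 : ℝ) := Real.one_le_rpow hX1 (by norm_num)
  have hcard : (S.card : ℝ) ≤ X ^ (14 / 25 : ℝ) * (1 + Real.log (X ^ (14 / 25 : ℝ))) ^ K := by
    refine TIa.card_tuples S _ hYpos fun q hq => ⟨?_, (hS q hq).2⟩
    intro h0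
    have h1 := (hS q hq).1
    rw [h0, mul_zero] at h1
    exact not_squarefree_zero h1
  have hswap : ∑ m ∈ Icc 1 M1, ∑ n ∈ Ioc N (2 * N), α m * f n * Phi (((m * n : ℕ) : ℝ) / X) *
      EE h W b (D0 X B) S c (m * n) = ∑ q ∈ S, c q * ∑ m ∈ Icc 1 M1, α m * ∑ n ∈ Ioc N (2 * N),
      f n * Phi (((m * n : ℕ) : ℝ) / X) * dl h W b (D0 X B) q (m * n) := by
    unfold EE
    simp only [mul_sum]
    symm
    rw [sum_comm]
    refine sum_congr rfl fun m _ => ?_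
    rw [sum_comm]
    refine sum_congr rfl fun n _ => sum_congr rfl fun q _ => ?_
    ring
  rw [hswap]
  refine (abs_sum_le_sum_abs _ _).trans ?_
  rw [← hZ] at hfin
  calc ∑ q ∈ S, |c q * ∑ m ∈ Icc 1 M1, α m * ∑ n ∈ Ioc N (2 * N),
      f n * Phi (((m * n : ℕ) : ℝ) / X) * dl h W b (D0 X B) q (m * n)| ≤
      ∑ q ∈ S, Z := by
        refine sum_le_sum fun q hq' => ?_
        rw [abs_mul]
        calc _ ≤ 1 * Z := mul_le_mul (hc q) (hq q hq') (abs_nonneg _) zero_le_one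
          _ = Z := one_mul Z
    _ = S.card * Z := by rw [sum_const, nsmul_eq_mul]
    _ ≤ (X ^ (14 / 25 : ℝ) * (1 + Real.log (X ^ (14 / 25 : ℝ))) ^ K) * Z := by gcongr
    _ ≤ X ^ (99 / 100 : ℝ) := hfin

end Pool.Agent.J4H35.LM
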