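import Mathlib
import Pool.Agent.J4H35.LM.A
import Pool.Agent.Y818.YZ.Lam

/-! Heath-Brown's identity and the dyadic decomposition. -/

open Finset Filter

namespace Pool.Agent.J4H35.LM

open Pool.Agent.Y826.Z Pool.Agent.Y61.Z

/-- truncated Möbius function -/
noncomputable def Mz (z : ℕ) : ArithmeticFunction ℝ :=
  ⟨fun n => if n ≤ z then ((ArithmeticFunction.moebius n : ℤ) : ℝ) else 0, by simp⟩

lemma Mz_apply (z n : ℕ) : Mz z n = if n ≤ z then ((ArithmeticFunction.moebius n : ℤ) : ℝ) else 0 := rfl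

/-- the function one -/
noncomputable def zr : ArithmeticFunction ℝ :=
  ((ArithmeticFunction.zeta : ArithmeticFunction ℕ) : ArithmeticFunction ℝ)

lemma zr_apply {n : ℕ} (hn : n ≠ 0) : zr n = 1 := by
  unfold zr
  simp [hn]

/-- evaluation at `n` as an additive homomorphism -/
noncomputable def evn (n : ℕ) : ArithmeticFunction ℝ →+ ℝ where
  toFun f := f n
  map_zero' := by simp
  map_add' f g := by simp

lemma evn_apply (n : ℕ) (f : ArithmeticFunction ℝ) : evn n f = f n := rfl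

/-- if `f` vanishes below `a` and `g` vanishes below `b` then `f g` vanishes below `a b` -/
lemma mul_vanish {f g : ArithmeticFunction ℝ} {a b : ℕ} (hf : ∀ n, n < a → f n = 0)
    (hg : ∀ n, n < b → g n = 0) : ∀ n, n < a * b → (f * g) n = 0 := by
  intro n hn
  rw [ArithmeticFunction.mul_apply]
  refine Finset.sum_eq_zero fun p hp => ?_
  have hp' := Nat.mem_divisorsAntidiagonal.1 hp
  by_cases h1 : p.1 < a
  · rw [hf _ h1, zero_mul]
  · by_cases h2 : p.2 < b
    · rw [hg _ h2, mul_zero]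
    · exfalso
      have := Nat.mul_le_mul (not_lt.1 h1) (not_lt.1 h2)
      rw [hp'.1] at this
      omega

lemma pow_vanish {f : ArithmeticFunction ℝ} {a : ℕ} (hf : ∀ n, n < a → f n = 0) (j : ℕ) :
    ∀ n, n < a ^ (j + 1) → (f ^ (j + 1)) n = 0 := by
  induction j with
  | zero => simpa using hf
  | succ j ih =>
    intro n hn
    rw [pow_succ]
    rw [pow_succ] at hn
    exact mul_vanish ih hf n hn

lemma eta_vanish (z : ℕ) (hz : 1 ≤ z) : ∀ n, n < z + 1 → (1 - zr * Mz z) n = 0 := by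
  intro n hn
  rcases Nat.eq_zero_or_pos n with h0 | h0
  · subst h0; simp
  have h1 : (zr * Mz z) n = (zr *
        ((ArithmeticFunction.moebius : ArithmeticFunction ℤ) : ArithmeticFunction ℝ)) n := by
    unfold zr
    rw [ArithmeticFunction.coe_zeta_mul_apply, ArithmeticFunction.coe_zeta_mul_apply]
    refine Finset.sum_congr rfl fun d hd => ?_
    have hd' : d ≤ z := (Nat.divisor_le hd).trans (by omega)
    simp [Mz_apply, hd']
  have h2 : (1 - zr * Mz z) n = (1 : ArithmeticFunction ℝ) n - (zr * Mz z) n := by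
    have := map_sub (evn n) (1 : ArithmeticFunction ℝ) (zr * Mz z)
    exact this
  rw [h2, h1]
  unfold zr
  rw [ArithmeticFunction.coe_zeta_mul_coe_moebius, sub_self]

/-- the factors -/
noncomputable def fam (z j : ℕ) (i : Fin 8) : ArithmeticFunction ℝ :=
  if (i : ℕ) < 4 then (if (i : ℕ) < j then Mz z else 1)
  else if (i : ℕ) < 7 then (if (i : ℕ) < j + 3 then zr else 1)
  else ArithmeticFunction.log

lemma fam1 (z : ℕ) : ∏ i, fam z 1 i = Mz z * ArithmeticFunction.log := by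
  rw [Fin.prod_univ_eight]
  simp [fam]

lemma fam2 (z : ℕ) : ∏ i, fam z 2 i = Mz z ^ 2 * zr * ArithmeticFunction.log := by
  rw [Fin.prod_univ_eight]
  simp [fam]
  ring

lemma fam3 (z : ℕ) : ∏ i, fam z 3 i = Mz z ^ 3 * zr ^ 2 * ArithmeticFunction.log := by
  rw [Fin.prod_univ_eight]
  simp [fam]
  ring

lemma fam4 (z : ℕ) : ∏ i, fam z 4 i = Mz z ^ 4 * zr ^ 3 * ArithmeticFunction.log := by
  rw [Fin.prod_univ_eight]
  simp [fam]
  ring

/-- Heath-Brown's identity -/
theorem hb4 (z n : ℕ) (hz : 1 ≤ z) (hnz : n < (z + 1) ^ 4) :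
    ArithmeticFunction.vonMangoldt n = 4 * (∏ i, fam z 1 i) n - 6 * (∏ i, fam z 2 i) n +
      4 * (∏ i, fam z 3 i) n - (∏ i, fam z 4 i) n := by
  have hE : ((ArithmeticFunction.vonMangoldt * (1 - zr * Mz z) ^ 4 : ArithmeticFunction ℝ)) n = 0 := by
    have h5 := pow_vanish (eta_vanish z hz) 3
    rw [ArithmeticFunction.mul_apply]
    refine Finset.sum_eq_zero fun p hp => ?_
    have hp' := Nat.mem_divisorsAntidiagonal.1 hp
    have hle : p.2 ≤ n := Nat.le_of_dvd (Nat.pos_of_ne_zero hp'.2) ⟨p.1, by rw [← hp'.1]; ring⟩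
    rw [h5 p.2 (by simpa using lt_of_le_of_lt hle hnz), mul_zero]
  have hLz : ArithmeticFunction.vonMangoldt * zr = ArithmeticFunction.log :=
    ArithmeticFunction.vonMangoldt_mul_zeta
  have hid : (ArithmeticFunction.vonMangoldt : ArithmeticFunction ℝ) =
      ArithmeticFunction.vonMangoldt * (1 - zr * Mz z) ^ 4 +
      ((4 : ℤ) • (Mz z * ArithmeticFunction.log) + (-6 : ℤ) • (Mz z ^ 2 * zr * ArithmeticFunction.log) +
       (4 : ℤ) • (Mz z ^ 3 * zr ^ 2 * ArithmeticFunction.log) +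
       (-1 : ℤ) • (Mz z ^ 4 * zr ^ 3 * ArithmeticFunction.log)) := by
    rw [← hLz]
    simp only [zsmul_eq_mul]
    push_cast
    ring
  have hev := congrArg (evn n) hid
  simp only [map_add, map_zsmul] at hev
  have e1 : evn n (ArithmeticFunction.vonMangoldt * (1 - zr * Mz z) ^ 4) = 0 := hE
  rw [e1, zero_add] at hev
  have e2 : ∀ f : ArithmeticFunction ℝ, evn n f = f n := fun f => rfl
  simp only [e2, zsmul_eq_mul] at hev
  rw [hev, fam1, fam2, fam3, fam4]
  push_cast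
  ring

/-! ### Dyadic pieces -/

/-- the restriction to `(2 ^ (k - 1), 2 ^ k]` -/
noncomputable def rst (f : ArithmeticFunction ℝ) (k : ℕ) : ArithmeticFunction ℝ :=
  ⟨fun n => if 2 ^ k < 2 * n ∧ n ≤ 2 ^ k then f n else 0, by simp⟩

lemma rst_apply (f : ArithmeticFunction ℝ) (k n : ℕ) :
    rst f k n = if 2 ^ k < 2 * n ∧ n ≤ 2 ^ k then f n else 0 := rfl

lemma rst_sum (f : ArithmeticFunction ℝ) (R n : ℕ) (hn : n ≤ 2 ^ R) :
    ∑ k ∈ range (R + 1), rst f k n = f n := by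
  rcases Nat.eq_zero_or_pos n with h0 | h0
  · subst h0; simp
  set k0 := Nat.clog 2 n with hk0
  have h1 : n ≤ 2 ^ k0 := Nat.le_pow_clog (by norm_num) n
  have h2 : 2 ^ k0 < 2 * n := by
    rcases Nat.eq_zero_or_pos k0 with hk | hk
    · rw [hk]; omega
    · have h3 : 2 ^ (k0 - 1) < n := by
        have h4 : 1 < n := by
          by_contra hcon
          have : n = 1 := by omega
          rw [this] at hk0
          simp at hk0
          omega
        exact Nat.pow_pred_clog_lt_self (by norm_num) h4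
      have h5 : 2 ^ k0 = 2 * 2 ^ (k0 - 1) := by
        rw [← pow_succ']
        congr 1
        omega
      omega
  have hk0R : k0 ≤ R := (Nat.clog_le_iff_le_pow (by norm_num)).2 hn
  rw [sum_eq_single_of_mem k0 (mem_range.2 (by omega))]
  · rw [rst_apply, if_pos ⟨h2, h1⟩]
  · intro k _ hne
    rw [rst_apply, if_neg]
    rintro ⟨h3, h4⟩
    apply hne
    have h5 : 2 ^ k < 2 ^ (k0 + 1) := by rw [pow_succ]; omega
    have h6 : 2 ^ k0 < 2 ^ (k + 1) := by rw [pow_succ]; omega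
    have h7 := (Nat.pow_lt_pow_iff_right (by norm_num : 1 < 2)).1 h5
    have h8 := (Nat.pow_lt_pow_iff_right (by norm_num : 1 < 2)).1 h6
    omega

/-- equality up to `Y` -/
def EqU (Y : ℕ) (f g : ArithmeticFunction ℝ) : Prop := ∀ n ≤ Y, f n = g n

lemma EqU.mul {Y : ℕ} {f f' g g' : ArithmeticFunction ℝ} (h1 : EqU Y f f') (h2 : EqU Y g g') :
    EqU Y (f * g) (f' * g') := by
  intro n hn
  rw [ArithmeticFunction.mul_apply, ArithmeticFunction.mul_apply]
  refine sum_congr rfl fun p hp => ?_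
  have hp' := Nat.mem_divisorsAntidiagonal.1 hp
  have hn0 : 0 < n := Nat.pos_of_ne_zero hp'.2
  have l1 : p.1 ≤ n := Nat.le_of_dvd hn0 ⟨p.2, hp'.1.symm⟩
  have l2 : p.2 ≤ n := Nat.le_of_dvd hn0 ⟨p.1, by rw [← hp'.1]; ring⟩
  rw [h1 _ (l1.trans hn), h2 _ (l2.trans hn)]

lemma EqU.prod {Y : ℕ} {ι : Type*} [DecidableEq ι] (s : Finset ι) {f g : ι → ArithmeticFunction ℝ}
    (h : ∀ i, EqU Y (f i) (g i)) : EqU Y (∏ i ∈ s, f i) (∏ i ∈ s, g i) := by
  induction s using Finset.induction_on with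
  | empty => intro n _; rfl
  | insert a s ha ih =>
    rw [prod_insert ha, prod_insert ha]
    exact (h a).mul ih

lemma decomp (F : Fin 8 → ArithmeticFunction ℝ) (w : ℕ → ℝ) (Y R : ℕ) (hY : Y ≤ 2 ^ R) :
    ∑ n ∈ Icc 1 Y, (∏ i, F i) n * w n =
      ∑ κ ∈ Fintype.piFinset (fun _ : Fin 8 => range (R + 1)),
        ∑ n ∈ Icc 1 Y, (∏ i, rst (F i) (κ i)) n * w n := by
  rw [sum_comm]
  refine sum_congr rfl fun n hn => ?_
  rw [mem_Icc] at hn
  rw [← sum_mul]
  congr 1
  have h1 : EqU Y (∏ i, F i) (∏ i, ∑ k ∈ range (R + 1), rst (F i) k) := by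
    refine EqU.prod univ fun i m hm => ?_
    have h2 : (∑ k ∈ range (R + 1), rst (F i) k) m = ∑ k ∈ range (R + 1), rst (F i) k m := by
      have := map_sum (evn m) (fun k => rst (F i) k) (range (R + 1))
      exact this
    rw [h2, rst_sum _ _ _ (hm.trans hY)]
  rw [h1 n hn.2, prod_univ_sum]
  have := map_sum (evn n) (fun κ : Fin 8 → ℕ => ∏ i, rst (F i) (κ i))
    (Fintype.piFinset (fun _ : Fin 8 => range (R + 1)))
  exact this

lemma prod_supp (F : Fin 8 → ArithmeticFunction ℝ) (κ : Fin 8 → ℕ) (T : Finset (Fin 8)) :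
    ∀ n, (∏ i ∈ T, rst (F i) (κ i)) n ≠ 0 → n ≤ 2 ^ (∑ i ∈ T, κ i) ∧ 2 ^ (∑ i ∈ T, κ i) ≤ 2 ^ T.card * n := by
  induction T using Finset.induction_on with
  | empty =>
    intro n hn
    simp only [prod_empty, ArithmeticFunction.one_apply, ne_eq, ite_eq_right_iff, one_ne_zero, imp_false,
      not_not] at hn
    subst hn
    simp
  | insert a s ha ih =>
    intro n hn
    rw [prod_insert ha, ArithmeticFunction.mul_apply] at hn
    obtain ⟨p, hp, hne⟩ := exists_ne_zero_of_sum_ne_zero hn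
    have hp' := Nat.mem_divisorsAntidiagonal.1 hp
    have h1 : rst (F a) (κ a) p.1 ≠ 0 := left_ne_zero_of_mul hne
    have h2 := right_ne_zero_of_mul hne
    have h3 := ih p.2 h2
    have h4 : 2 ^ κ a < 2 * p.1 ∧ p.1 ≤ 2 ^ κ a := by
      rw [rst_apply] at h1
      by_contra hcon
      rw [if_neg hcon] at h1
      exact h1 rfl
    rw [sum_insert ha, card_insert_of_notMem ha, ← hp'.1, pow_add, pow_succ]
    refine ⟨Nat.mul_le_mul h4.2 h3.1, ?_⟩
    calc 2 ^ κ a * 2 ^ ∑ i ∈ s, κ i ≤ (2 * p.1) * (2 ^ s.card * p.2) := Nat.mul_le_mul h4.1.le h3.2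
      _ = 2 ^ s.card * 2 * (p.1 * p.2) := by ring

lemma prod_bd (F : Fin 8 → ArithmeticFunction ℝ) (κ : Fin 8 → ℕ) {L : ℝ} (hL : 1 ≤ L)
    (hF : ∀ i n, |rst (F i) (κ i) n| ≤ L) (T : Finset (Fin 8)) :
    ∀ n, |(∏ i ∈ T, rst (F i) (κ i)) n| ≤ (tau n * L) ^ T.card := by
  induction T using Finset.induction_on with
  | empty =>
    intro n
    rw [prod_empty, card_empty, pow_zero, ArithmeticFunction.one_apply]
    split_ifs <;> simp
  | insert a s ha ih =>
    intro n
    rw [prod_insert ha, card_insert_of_notMem ha]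
    rcases Nat.eq_zero_or_pos n with h0 | h0
    · subst h0
      rw [ArithmeticFunction.map_zero, abs_zero]
      exact pow_nonneg (mul_nonneg (tau_nonneg _) (by linarith)) _
    rw [ArithmeticFunction.mul_apply]
    have hL0 : 0 ≤ L := by linarith
    calc |∑ p ∈ n.divisorsAntidiagonal, rst (F a) (κ a) p.1 * (∏ i ∈ s, rst (F i) (κ i)) p.2|
        ≤ ∑ p ∈ n.divisorsAntidiagonal, L * (tau n * L) ^ s.card := by
          refine (abs_sum_le_sum_abs _ _).trans (sum_le_sum fun p hp => ?_)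
          have hp' := Nat.mem_divisorsAntidiagonal.1 hp
          rw [abs_mul]
          have h1 : tau p.2 ≤ tau n := tau_le_of_dvd ⟨p.1, by rw [← hp'.1]; ring⟩ hp'.2
          refine mul_le_mul (hF a _) ((ih p.2).trans ?_) (abs_nonneg _) hL0
          exact pow_le_pow_left₀ (mul_nonneg (tau_nonneg _) hL0) (mul_le_mul_of_nonneg_right h1 hL0) _
      _ = (tau n * L) ^ (s.card + 1) := by
          rw [sum_const, nsmul_eq_mul, pow_succ, ← Nat.map_div_right_divisors, card_map]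
          unfold tau
          ring

lemma prod_bd8 (F : Fin 8 → ArithmeticFunction ℝ) (κ : Fin 8 → ℕ) {L : ℝ} (hL : 1 ≤ L)
    (hF : ∀ i n, |rst (F i) (κ i) n| ≤ L ^ 2) (T : Finset (Fin 8)) {n : ℕ} (hn : 1 ≤ n) :
    |(∏ i ∈ T, rst (F i) (κ i)) n| ≤ (tau n * L) ^ 16 := by
  have h1 := prod_bd F κ (one_le_pow₀ hL : (1 : ℝ) ≤ L ^ 2) hF T n
  refine h1.trans ?_
  have ht : 1 ≤ tau n := one_le_tau (by omega)
  have hc : T.card ≤ 8 := (card_le_univ T).trans (by simp)
  have h2 : 1 ≤ tau n * L ^ 2 := by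
    calc (1 : ℝ) = 1 * 1 := (mul_one _).symm
      _ ≤ _ := mul_le_mul ht (one_le_pow₀ hL) (by norm_num) (by linarith)
  calc (tau n * L ^ 2) ^ T.card ≤ (tau n * L ^ 2) ^ 8 := pow_le_pow_right₀ h2 hc
    _ ≤ ((tau n) ^ 2 * L ^ 2) ^ 8 := by
        refine pow_le_pow_left₀ (by linarith) ?_ 8
        refine mul_le_mul_of_nonneg_right ?_ (by positivity)
        nlinarith
    _ = (tau n * L) ^ 16 := by rw [← mul_pow, ← pow_mul]

/-- the bilinear form of a convolution -/
lemma bil (F G : ArithmeticFunction ℝ) (w : ℕ → ℝ) (Y : ℕ) (hw : ∀ k, Y < k → w k = 0) (I J : Finset ℕ)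
    (hI : ∀ m ∈ I, 0 < m) (hJ : ∀ m ∈ J, 0 < m) (hF : ∀ m, F m ≠ 0 → m ∈ I) (hG : ∀ m, G m ≠ 0 → m ∈ J) :
    ∑ n ∈ Icc 1 Y, (F * G) n * w n = ∑ m ∈ I, ∑ n ∈ J, F m * G n * w (m * n) := by
  have e1 : ∑ n ∈ Icc 1 Y, (F * G) n * w n =
      ∑ n ∈ Icc 1 Y, ∑ i ∈ n.divisorsAntidiagonal, F i.1 * G i.2 * w (i.1 * i.2) := by
    apply sum_congr rfl
    intro n _
    rw [ArithmeticFunction.mul_apply, sum_mul]
    apply sum_congr rfl
    intro i hi
    rw [(Nat.mem_divisorsAntidiagonal.1 hi).1]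
  rw [e1, Pool.Agent.Y818.YZ.box Y (fun b c => F b * G c * w (b * c))
    (fun b c h => by rw [hw _ h, mul_zero])]
  refine Finset.sum_congr_of_eq_on_inter ?_ ?_ ?_
  · intro m _ hm
    have : F m = 0 := by by_contra h; exact hm (hF m h)
    refine sum_eq_zero fun n _ => ?_
    rw [this]; ring
  · intro m hm hm2
    have hm0 := hI m hm
    have hmY : Y < m := by
      by_contra h
      exact hm2 (mem_Icc.2 ⟨hm0, by omega⟩)
    refine sum_eq_zero fun n hn => ?_
    have hn0 := hJ n hn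
    rw [hw _ (lt_of_lt_of_le hmY (Nat.le_mul_of_pos_right _ hn0)), mul_zero]
  · intro m hm _
    rw [mem_Icc] at hm
    refine Finset.sum_congr_of_eq_on_inter ?_ ?_ ?_
    · intro n _ hn
      have : G n = 0 := by by_contra h; exact hn (hG n h)
      rw [this]; ring
    · intro n hn hn2
      have hn0 := hJ n hn
      have hnY : Y < n := by
        by_contra h
        exact hn2 (mem_Icc.2 ⟨hn0, by omega⟩)
      rw [hw _ (lt_of_lt_of_le hnY (Nat.le_mul_of_pos_left _ (by omega))), mul_zero]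
    · intro n _ _
      rfl

/-! ### The combinatorial lemma -/

lemma comb (x : Fin 8 → ℝ) (hx0 : ∀ i, 0 ≤ x i) (hx : ∀ i, x i ≤ 5 / 16) (hs : 1 ≤ ∑ i, x i) :
    ∃ T : Finset (Fin 8), 3 / 8 ≤ ∑ i ∈ T, x i ∧ ∑ i ∈ T, x i ≤ 5 / 8 := by
  classical
  by_cases h2 : ∃ i j : Fin 8, i ≠ j ∧ 1 / 4 < x i ∧ 1 / 4 < x j
  · obtain ⟨i, j, hij, hi, hj⟩ := h2
    refine ⟨{i, j}, ?_, ?_⟩
    · rw [sum_pair hij]; linarith
    · rw [sum_pair hij]; linarith [hx i, hx j]
  · push Not at h2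
    set T0 : Finset (Fin 8) := univ.filter (fun i => 1 / 4 < x i) with hT0
    have hT0s : ∑ i ∈ T0, x i ≤ 5 / 16 := by
      have hc : T0.card ≤ 1 := by
        rw [card_le_one]
        intro a ha b hb
        rw [hT0, mem_filter] at ha hb
        by_contra hab
        exact absurd hb.2 (not_lt.2 (h2 a b hab ha.2))
      rcases Nat.le_one_iff_eq_zero_or_eq_one.1 hc with h | h
      · rw [card_eq_zero.1 h, sum_empty]; norm_num
      · obtain ⟨a, ha⟩ := card_eq_one.1 h
        rw [ha, sum_singleton]; exact hx a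
    set Fm : Finset (Finset (Fin 8)) := univ.filter (fun T => T0 ⊆ T ∧ 3 / 8 ≤ ∑ i ∈ T, x i) with hFm
    have hne : Fm.Nonempty := ⟨univ, by
      rw [hFm, mem_filter]; exact ⟨mem_univ _, subset_univ _, by linarith⟩⟩
    obtain ⟨T, hT, hmin⟩ := exists_min_image Fm card hne
    rw [hFm, mem_filter] at hT
    refine ⟨T, hT.2.2, ?_⟩
    have hneT : ∃ j ∈ T, j ∉ T0 := by
      by_contra hcon
      push Not at hcon
      have : T = T0 := Subset.antisymm hcon hT.2.1
      rw [this] at hT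
      linarith [hT.2.2]
    obtain ⟨j, hjT, hj0⟩ := hneT
    have hxj : x j ≤ 1 / 4 := by
      by_contra h
      exact hj0 (by rw [hT0, mem_filter]; exact ⟨mem_univ _, not_le.1 h⟩)
    have hlt : ∑ i ∈ T.erase j, x i < 3 / 8 := by
      by_contra h
      rw [not_lt] at h
      have h1 : T.erase j ∈ Fm := by
        rw [hFm, mem_filter]
        refine ⟨mem_univ _, fun a ha => ?_, h⟩
        rw [mem_erase]
        exact ⟨fun e => hj0 (e ▸ ha), hT.2.1 ha⟩
      have h2 := hmin _ h1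
      rw [card_erase_of_mem hjT] at h2
      have h3 : 0 < T.card := card_pos.2 ⟨j, hjT⟩
      omega
    rw [← add_sum_erase T x hjT]
    linarith

end Pool.Agent.J4H35.LM
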