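import Mathlib
import Pool.Agent.J4H35.LM.C
import Pool.Agent.J4H35.LM.D
import Pool.Agent.J4H35.LM.E

/-! The von Mangoldt function by Heath-Brown's identity: the level of distribution from type II ranges
`[X ^ (3/8), X ^ (5/8)]` and smooth variables `≥ X ^ (5/16)`. -/

open Finset Filter

namespace Pool.Agent.J4H35.LM

open Pool.Agent.Y826.Z Pool.Agent.Y61.Z
open Pool.Agent.J4H35.SM (SzS S_TIIS bt)
open Pool.Agent.H378R2 (Phi)

/-- the grouping is possible for all the lengths -/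
def GroupOK3 {K : ℕ} (δ X : ℝ) (Q : Fin K → ℝ) : Prop :=
  (∀ M N : ℕ, X / 16 ≤ (M : ℝ) * N → (M : ℝ) * N ≤ 16 * X → X ^ (3 / 8 - δ : ℝ) ≤ N →
    (N : ℝ) ≤ 16 * X ^ (1 / 2 : ℝ) →
    ∃ g : Fin K → Fin 5, Sz δ X M N (szg Q g 0) (szg Q g 1) (szg Q g 2) (szg Q g 3) (szg Q g 4)) ∧
  (∀ M N : ℕ, X / 16 ≤ (M : ℝ) * N → (M : ℝ) * N ≤ 16 * X → X ^ (5 / 16 - δ : ℝ) ≤ N →
    (N : ℝ) ≤ X ^ (3 / 8 + δ : ℝ) →
    ∃ g : Fin K → Fin 5, (∀ j, g j ≠ 4) ∧ SzS δ X M N (szg Q g 0) (szg Q g 1) (szg Q g 2) (szg Q g 3))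

/-- von Mangoldt function -/
def S_LAM3 : Prop := ∀ (K : ℕ) (h : Fin K → ℤ) (W b : ℕ), Hyp h W b → ∀ δ : ℝ, 0 < δ → ∃ ε : ℝ, 0 < ε ∧
  ∀ A : ℕ, ∃ B0 : ℕ, ∀ B : ℕ, B0 ≤ B →
  ∀ᶠ X : ℝ in atTop, ∀ (Q : Fin K → ℝ), (∀ j, 0 < Q j) → ∏ j, Q j ≤ X ^ (11 / 20 : ℝ) → GroupOK3 δ X Q →
  ∀ S : Finset (Fin K → ℕ), (∀ q ∈ S, Squarefree (W * Pr q) ∧ (∀ j, Q j < q j ∧ (q j : ℝ) ≤ 2 * Q j) ∧
      (Pr (sm (D0 X B) q) : ℝ) ≤ X ^ ε) →
  ∀ c : (Fin K → ℕ) → ℝ, (∀ q, |c q| ≤ 1) →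
    |∑ q ∈ S, c q * ∑ n ∈ Icc 1 ⌊3 * X⌋₊, H378R2.Phi (n / X) * ArithmeticFunction.vonMangoldt n *
      dl h W b (D0 X B) q n| ≤ X / (Real.log X) ^ A

/-- the weight in the blocks vanishes unless the product is about `X` -/
lemma Phi_blk {X : ℝ} (hX0 : 0 < X) {M N m n : ℕ} (hm : m ∈ Ioc M (2 * M)) (hn : n ∈ Ioc N (2 * N))
    (hc : ¬ (X / 16 ≤ (M : ℝ) * N ∧ (M : ℝ) * N ≤ 16 * X)) : Phi (((m * n : ℕ) : ℝ) / X) = 0 := by
  rw [mem_Ioc] at hm hn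
  by_cases hc1 : X / 16 ≤ (M : ℝ) * N
  · have hc2 : ¬ (M : ℝ) * N ≤ 16 * X := fun h => hc ⟨hc1, h⟩
    rw [Pool.Agent.Y674.ZB.Phi_high]
    rw [le_div_iff₀ hX0, Nat.cast_mul]
    rw [not_le] at hc2
    have a1 : (M : ℝ) ≤ m := by exact_mod_cast hm.1.le
    have b1 : (N : ℝ) ≤ n := by exact_mod_cast hn.1.le
    have := mul_le_mul a1 b1 (Nat.cast_nonneg _) ((Nat.cast_nonneg M).trans a1)
    linarith
  · have hm0 : 0 < m := by omega
    have hn0 : 0 < n := by omega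
    rw [Pool.Agent.Y674.ZB.Phi_low (by positivity)]
    rw [div_le_iff₀ hX0, Nat.cast_mul]
    rw [not_le] at hc1
    have a1 : (m : ℝ) ≤ 2 * M := by exact_mod_cast hm.2
    have b1 : (n : ℝ) ≤ 2 * N := by exact_mod_cast hn.2
    have := mul_le_mul a1 b1 (Nat.cast_nonneg _) (by positivity)
    linarith

/-- one bilinear form over long intervals, from the bound for the blocks -/
lemma bigblock {X : ℝ} (hX0 : 0 < X) (E : ℕ → ℝ) (F G : ℕ → ℝ) (T : ℝ) (hT : 0 ≤ T) (a b R R' : ℕ)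
    (hblk : ∀ i < R, ∀ j < R', X / 16 ≤ ((2 ^ i * a : ℕ) : ℝ) * (2 ^ j * b : ℕ) →
      ((2 ^ i * a : ℕ) : ℝ) * (2 ^ j * b : ℕ) ≤ 16 * X →
      |∑ m ∈ Ioc (2 ^ i * a) (2 * (2 ^ i * a)), ∑ n ∈ Ioc (2 ^ j * b) (2 * (2 ^ j * b)),
        F m * G n * Phi (((m * n : ℕ) : ℝ) / X) * E (m * n)| ≤ T) :
    |∑ m ∈ Ioc a (2 ^ R * a), ∑ n ∈ Ioc b (2 ^ R' * b), F m * G n * Phi (((m * n : ℕ) : ℝ) / X) * E (m * n)| ≤
      R * R' * T := by
  have h1 : ∑ m ∈ Ioc a (2 ^ R * a), ∑ n ∈ Ioc b (2 ^ R' * b),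
      F m * G n * Phi (((m * n : ℕ) : ℝ) / X) * E (m * n) =
      ∑ i ∈ range R, ∑ j ∈ range R', ∑ m ∈ Ioc (2 ^ i * a) (2 * (2 ^ i * a)),
        ∑ n ∈ Ioc (2 ^ j * b) (2 * (2 ^ j * b)), F m * G n * Phi (((m * n : ℕ) : ℝ) / X) * E (m * n) := by
    rw [Pool.Agent.Y674.ZB.dyadic]
    refine sum_congr rfl fun i _ => ?_
    rw [sum_congr rfl fun m _ => Pool.Agent.Y674.ZB.dyadic b
      (fun n => F m * G n * Phi (((m * n : ℕ) : ℝ) / X) * E (m * n)) R', sum_comm]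
  rw [h1]
  refine (abs_sum_le_sum_abs _ _).trans ?_
  have h2 : ∀ i ∈ range R, |∑ j ∈ range R', ∑ m ∈ Ioc (2 ^ i * a) (2 * (2 ^ i * a)),
        ∑ n ∈ Ioc (2 ^ j * b) (2 * (2 ^ j * b)), F m * G n * Phi (((m * n : ℕ) : ℝ) / X) * E (m * n)| ≤
      R' * T := by
    intro i hi
    refine (abs_sum_le_sum_abs _ _).trans ?_
    have h3 : ∀ j ∈ range R', |∑ m ∈ Ioc (2 ^ i * a) (2 * (2 ^ i * a)),
        ∑ n ∈ Ioc (2 ^ j * b) (2 * (2 ^ j * b)), F m * G n * Phi (((m * n : ℕ) : ℝ) / X) * E (m * n)| ≤ T := by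
      intro j hj
      by_cases hc : X / 16 ≤ ((2 ^ i * a : ℕ) : ℝ) * (2 ^ j * b : ℕ) ∧
          ((2 ^ i * a : ℕ) : ℝ) * (2 ^ j * b : ℕ) ≤ 16 * X
      · exact hblk i (mem_range.1 hi) j (mem_range.1 hj) hc.1 hc.2
      · rw [sum_eq_zero fun m hm => sum_eq_zero fun n hn => by rw [Phi_blk hX0 hm hn hc, mul_zero, zero_mul],
          abs_zero]
        exact hT
    refine (sum_le_sum h3).trans ?_
    rw [sum_const, card_range, nsmul_eq_mul]
  refine (sum_le_sum h2).trans ?_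
  rw [sum_const, card_range, nsmul_eq_mul, mul_assoc]

lemma pow_eq_rpow {X : ℝ} (hX : 1 < X) (k : ℕ) : (2 : ℝ) ^ k = X ^ ((k : ℝ) * (Real.log 2 / Real.log X)) := by
  have hL : 0 < Real.log X := Real.log_pos hX
  rw [Real.rpow_def_of_pos (by linarith), ← Real.rpow_natCast, Real.rpow_def_of_pos (by norm_num)]
  congr 1
  field_simp

section
variable {K : ℕ} {h : Fin K → ℤ} {W b : ℕ}

/-- the contribution of one tuple of dyadic pieces -/
lemma piece {X δ ε1 ε2 A' : ℝ} {B : ℕ} (hδ : 0 < δ) {L : ℝ} (hL : L = Real.log X) (hL3 : 3 ≤ L) (hX3 : 3 ≤ X)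
    {T : ℝ} (hT0 : 0 ≤ T) (hT9 : X ^ (99 / 100 : ℝ) ≤ T)
    (b1 : ∀ (M N : ℕ) (Q : Fin K → ℝ) (g : Fin K → Fin 5), (∀ j, 0 < Q j) →
      Sz δ X M N (szg Q g 0) (szg Q g 1) (szg Q g 2) (szg Q g 3) (szg Q g 4) →
      ∀ S : Finset (Fin K → ℕ), (∀ q ∈ S, Squarefree (W * Pr q) ∧ (∀ j, Q j < q j ∧ (q j : ℝ) ≤ 2 * Q j) ∧
        (Pr (sm (D0 X B) q) : ℝ) ≤ X ^ ε1) → (∀ q ∈ S, (Pr q : ℝ) ≤ X) →
      ∀ c : (Fin K → ℕ) → ℝ, (∀ q, |c q| ≤ 1) →
      ∀ α β : ℕ → ℝ, (∀ m ∈ Ioc M (2 * M), |α m| ≤ (tau m * Real.log X) ^ 16) →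
      (∀ n ∈ Ioc N (2 * N), |β n| ≤ (tau n * Real.log X) ^ 16) →
      |∑ m ∈ Ioc M (2 * M), ∑ n ∈ Ioc N (2 * N), α m * β n * Phi (((m * n : ℕ) : ℝ) / X) *
        EE h W b (D0 X B) S c (m * n)| ≤ T)
    (b2 : ∀ (M N : ℕ) (Q : Fin K → ℝ) (g : Fin K → Fin 5), (∀ j, g j ≠ 4) → (∀ j, 0 < Q j) →
      SzS δ X M N (szg Q g 0) (szg Q g 1) (szg Q g 2) (szg Q g 3) →
      ∀ S : Finset (Fin K → ℕ), (∀ q ∈ S, Squarefree (W * Pr q) ∧ (∀ j, Q j < q j ∧ (q j : ℝ) ≤ 2 * Q j) ∧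
        (Pr (sm (D0 X B) q) : ℝ) ≤ X ^ ε2) → (∀ q ∈ S, (Pr q : ℝ) ≤ X) →
      ∀ c : (Fin K → ℕ) → ℝ, (∀ q, |c q| ≤ 1) →
      ∀ α : ℕ → ℝ, (∀ m ∈ Ioc M (2 * M), |α m| ≤ (tau m * Real.log X) ^ 16) →
      ∀ f : ℕ → ℝ, ((∀ l, f l = 1) ∨ ∀ l, f l = Real.log l) →
      |∑ m ∈ Ioc M (2 * M), ∑ n ∈ Ioc N (2 * N), α m * f n * Phi (((m * n : ℕ) : ℝ) / X) *
        EE h W b (D0 X B) S c (m * n)| ≤ T)
    (b3 : ∀ S : Finset (Fin K → ℕ),
      (∀ q ∈ S, Squarefree (W * Pr q) ∧ (Pr q : ℝ) ≤ X ^ (14 / 25 : ℝ)) →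
      ∀ c : (Fin K → ℕ) → ℝ, (∀ q, |c q| ≤ 1) → ∀ M1 N : ℕ, (M1 : ℝ) ≤ X ^ (2 / 5 : ℝ) → (N : ℝ) ≤ 8 * X →
      ∀ α : ℕ → ℝ, (∀ m ∈ Icc 1 M1, |α m| ≤ (tau m * Real.log X) ^ 16) →
      ∀ f : ℕ → ℝ, ((∀ l, f l = 1) ∨ ∀ l, f l = Real.log l) →
      |∑ m ∈ Icc 1 M1, ∑ n ∈ Ioc N (2 * N), α m * f n * Phi (((m * n : ℕ) : ℝ) / X) *
        EE h W b (D0 X B) S c (m * n)| ≤ X ^ (99 / 100 : ℝ))
    (e1 : (512 : ℝ) ≤ X ^ δ) (e2 : (768 : ℝ) ≤ X ^ (1 / 40 : ℝ))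
    {Q : Fin K → ℝ} (hQ : ∀ j, 0 < Q j) (hG : GroupOK3 δ X Q)
    {S : Finset (Fin K → ℕ)} (hS : ∀ q ∈ S, Squarefree (W * Pr q) ∧ (∀ j, Q j < q j ∧ (q j : ℝ) ≤ 2 * Q j) ∧
      (Pr (sm (D0 X B) q) : ℝ) ≤ X ^ (min ε1 ε2))
    (hPr : ∀ q ∈ S, (Pr q : ℝ) ≤ X ^ (14 / 25 : ℝ))
    {c : (Fin K → ℕ) → ℝ} (hc : ∀ q, |c q| ≤ 1)
    {F : Fin 8 → ArithmeticFunction ℝ} {κ : Fin 8 → ℕ} (hF0 : ∀ i n, |rst (F i) (κ i) n| ≤ L ^ 2)
    (hκ : ∀ i, (2 : ℝ) ^ κ i ≤ 6 * X)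
    (hF1 : ∀ i, X ^ (5 / 16 : ℝ) < (2 : ℝ) ^ κ i → (∃ f : ℕ → ℝ, ((∀ l, f l = 1) ∨ ∀ l, f l = Real.log l) ∧
      ∀ n, 1 ≤ n → F i n = f n) ∨ rst (F i) (κ i) = 0) :
    |∑ n ∈ Icc 1 ⌊3 * X⌋₊, (∏ i, rst (F i) (κ i)) n * (Phi ((n : ℝ) / X) * EE h W b (D0 X B) S c n)| ≤
      81 * T := by
  have hX0 : 0 < X := by linarith
  have hX1 : 1 < X := by linarith
  have hL0 : 0 < L := by linarith
  set E := EE h W b (D0 X B) S c with hE
  set w : ℕ → ℝ := fun n => Phi ((n : ℝ) / X) * E n with hw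
  have hw0 : ∀ k, ⌊3 * X⌋₊ < k → w k = 0 := by
    intro k hk
    simp only [hw]
    rw [Pool.Agent.Y674.ZB.Phi_high, zero_mul]
    rw [le_div_iff₀ hX0]
    exact (Nat.lt_of_floor_lt hk).le
  have hS1 : ∀ q ∈ S, Squarefree (W * Pr q) ∧ (∀ j, Q j < q j ∧ (q j : ℝ) ≤ 2 * Q j) ∧
      (Pr (sm (D0 X B) q) : ℝ) ≤ X ^ ε1 := fun q hq =>
    ⟨(hS q hq).1, (hS q hq).2.1, (hS q hq).2.2.trans (Real.rpow_le_rpow_of_exponent_le hX1.le (min_le_left _ _))⟩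
  have hS2 : ∀ q ∈ S, Squarefree (W * Pr q) ∧ (∀ j, Q j < q j ∧ (q j : ℝ) ≤ 2 * Q j) ∧
      (Pr (sm (D0 X B) q) : ℝ) ≤ X ^ ε2 := fun q hq =>
    ⟨(hS q hq).1, (hS q hq).2.1, (hS q hq).2.2.trans (Real.rpow_le_rpow_of_exponent_le hX1.le (min_le_right _ _))⟩
  have hPrX : ∀ q ∈ S, (Pr q : ℝ) ≤ X := fun q hq => (hPr q hq).trans (by
    calc X ^ (14 / 25 : ℝ) ≤ X ^ (1 : ℝ) := Real.rpow_le_rpow_of_exponent_le hX1.le (by norm_num)
      _ = X := Real.rpow_one X)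
  have hLone : 1 ≤ L := by linarith
  have hbd : ∀ (T' : Finset (Fin 8)) (n : ℕ), 1 ≤ n →
      |(∏ i ∈ T', rst (F i) (κ i)) n| ≤ (tau n * Real.log X) ^ 16 := by
    intro T' n hn
    rw [← hL]
    exact prod_bd8 F κ hLone hF0 T' hn
  -- exponents
  set x : Fin 8 → ℝ := fun i => (κ i : ℝ) * (Real.log 2 / Real.log X) with hx
  have hlog2 : 0 < Real.log 2 := Real.log_pos (by norm_num)
  have hx0 : ∀ i, 0 ≤ x i := fun i => by
    simp only [hx]; rw [← hL]; positivity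
  have hxs : ∀ T' : Finset (Fin 8), (2 : ℝ) ^ (∑ i ∈ T', κ i) = X ^ (∑ i ∈ T', x i) := by
    intro T'
    rw [pow_eq_rpow hX1]
    congr 1
    simp only [hx]
    rw [← sum_mul]
    push_cast
    rfl
  have hx1 : ∀ i, (2 : ℝ) ^ κ i = X ^ x i := fun i => pow_eq_rpow hX1 (κ i)
  -- the total size
  by_cases hs1 : X < (2 : ℝ) ^ (∑ i, κ i)
  swap
  · have h0 : ∑ n ∈ Icc 1 ⌊3 * X⌋₊, (∏ i, rst (F i) (κ i)) n * w n = 0 := by
      refine sum_eq_zero fun n hn => ?_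
      rw [mem_Icc] at hn
      by_cases hp : (∏ i, rst (F i) (κ i)) n = 0
      · rw [hp, zero_mul]
      · have h1 := (prod_supp F κ univ n hp).1
        have h2 : (n : ℝ) ≤ X := by
          rw [not_lt] at hs1
          refine le_trans ?_ hs1
          exact_mod_cast h1
        simp only [hw]
        have hn0 : (0 : ℝ) < n := by exact_mod_cast hn.1
        rw [Pool.Agent.Y674.ZB.Phi_low (by positivity) (by rw [div_le_one hX0]; exact h2), zero_mul, mul_zero]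
    rw [h0, abs_zero]
    positivity
  by_cases hs2 : (2 : ℝ) ^ (∑ i, κ i) ≤ 768 * X
  swap
  · have h0 : ∑ n ∈ Icc 1 ⌊3 * X⌋₊, (∏ i, rst (F i) (κ i)) n * w n = 0 := by
      refine sum_eq_zero fun n hn => ?_
      rw [mem_Icc] at hn
      by_cases hp : (∏ i, rst (F i) (κ i)) n = 0
      · rw [hp, zero_mul]
      · exfalso
        have h1 := (prod_supp F κ univ n hp).2
        have h2 : (n : ℝ) ≤ 3 * X := (Nat.cast_le.2 hn.2).trans (Nat.floor_le (by linarith))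
        rw [card_univ, Fintype.card_fin] at h1
        have h3 : (2 : ℝ) ^ (∑ i, κ i) ≤ 2 ^ 8 * n := by exact_mod_cast h1
        apply hs2
        linarith
    rw [h0, abs_zero]
    positivity
  have hsum1 : 1 ≤ ∑ i, x i := by
    by_contra hcon
    rw [not_le] at hcon
    rw [hxs univ] at hs1
    have h1 : X ^ (∑ i, x i) ≤ X ^ (1 : ℝ) := Real.rpow_le_rpow_of_exponent_le hX1.le hcon.le
    rw [Real.rpow_one] at h1
    linarith
  have hsplit : ∀ T' : Finset (Fin 8), (2 : ℝ) ^ (∑ i ∈ T', κ i) * 2 ^ (∑ i ∈ T'ᶜ, κ i) =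
      2 ^ (∑ i, κ i) := by
    intro T'
    rw [← pow_add, sum_add_sum_compl]
  have hXδ : 512 * X ^ (3 / 8 - δ : ℝ) ≤ X ^ (3 / 8 : ℝ) := by
    calc 512 * X ^ (3 / 8 - δ : ℝ) ≤ X ^ δ * X ^ (3 / 8 - δ : ℝ) :=
          mul_le_mul_of_nonneg_right e1 (by positivity)
      _ = X ^ (3 / 8 : ℝ) := by rw [← Real.rpow_add hX0]; congr 1; ring
  have hXδ5 : 512 * X ^ (5 / 16 - δ : ℝ) ≤ X ^ (5 / 16 : ℝ) := by
    calc 512 * X ^ (5 / 16 - δ : ℝ) ≤ X ^ δ * X ^ (5 / 16 - δ : ℝ) :=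
          mul_le_mul_of_nonneg_right e1 (by positivity)
      _ = X ^ (5 / 16 : ℝ) := by rw [← Real.rpow_add hX0]; congr 1; ring
  have h38 : (768 : ℝ) ≤ X ^ (3 / 8 : ℝ) := e2.trans (Real.rpow_le_rpow_of_exponent_le hX1.le (by norm_num))
  -- type II
  have typeII : ∀ T' : Finset (Fin 8), 3 / 8 ≤ ∑ i ∈ T', x i → ∑ i ∈ T', x i ≤ 5 / 8 →
      |∑ n ∈ Icc 1 ⌊3 * X⌋₊, (∏ i, rst (F i) (κ i)) n * w n| ≤ 81 * T := by
    intro T' ht1 ht2
    have ha : X ^ (3 / 8 : ℝ) ≤ 2 ^ (∑ i ∈ T', κ i) := by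
      rw [hxs]; exact Real.rpow_le_rpow_of_exponent_le hX1.le ht1
    have hb : X ^ (3 / 8 : ℝ) ≤ 2 ^ (∑ i ∈ T'ᶜ, κ i) := by
      have h1 : (2 : ℝ) ^ (∑ i ∈ T', κ i) ≤ X ^ (5 / 8 : ℝ) := by
        rw [hxs]; exact Real.rpow_le_rpow_of_exponent_le hX1.le ht2
      have h2 := hsplit T'
      have h3 : X = X ^ (3 / 8 : ℝ) * X ^ (5 / 8 : ℝ) := by
        rw [← Real.rpow_add hX0]; norm_num
      have h5 : 0 < X ^ (5 / 8 : ℝ) := Real.rpow_pos_of_pos hX0 _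
      by_contra hcon
      rw [not_le] at hcon
      have h6 : (2 : ℝ) ^ (∑ i ∈ T', κ i) * 2 ^ (∑ i ∈ T'ᶜ, κ i) ≤ X ^ (5 / 8 : ℝ) * X ^ (3 / 8 : ℝ) :=
        mul_le_mul h1 hcon.le (by positivity) h5.le
      linarith
    obtain ⟨a, had⟩ : ∃ a, a = ∑ i ∈ T', κ i := ⟨_, rfl⟩
    obtain ⟨b', hbd'⟩ : ∃ b', b' = ∑ i ∈ T'ᶜ, κ i := ⟨_, rfl⟩
    rw [← had] at ha
    rw [← hbd'] at hb
    have h9 : ∀ r : ℕ, X ^ (3 / 8 : ℝ) ≤ 2 ^ r → 9 ≤ r ∧ X ^ (3 / 8 - δ : ℝ) ≤ ((2 ^ (r - 9) : ℕ) : ℝ) := by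
      intro r hr
      have h1 : 9 ≤ r := by
        by_contra hcon
        have h2 : r ≤ 9 := by omega
        have h3 : (2 : ℝ) ^ r ≤ 2 ^ 9 := pow_le_pow_right₀ (by norm_num) h2
        linarith
      refine ⟨h1, ?_⟩
      have h2 : (2 : ℝ) ^ r = 512 * 2 ^ (r - 9) := by
        conv_lhs => rw [show r = (r - 9) + 9 by omega]
        rw [pow_add]; norm_num; ring
      push_cast
      linarith
    obtain ⟨ha9, ha'⟩ := h9 a ha
    obtain ⟨hb9, hb'⟩ := h9 b' hb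
    have hprod : ∏ i, rst (F i) (κ i) = (∏ i ∈ T', rst (F i) (κ i)) * ∏ i ∈ T'ᶜ, rst (F i) (κ i) :=
      (prod_mul_prod_compl T' _).symm
    have hmem : ∀ (T'' : Finset (Fin 8)) (r : ℕ), r = ∑ i ∈ T'', κ i → 9 ≤ r →
        ∀ m, (∏ i ∈ T'', rst (F i) (κ i)) m ≠ 0 → m ∈ Ioc (2 ^ (r - 9)) (2 ^ 9 * 2 ^ (r - 9)) := by
      intro T'' r hr hr9 m hm
      have h1 := prod_supp F κ T'' m hm
      rw [← hr] at h1
      have h2 : 2 ^ r = 2 ^ 9 * 2 ^ (r - 9) := by rw [← pow_add]; congr 1; omega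
      have hm0 : 0 < m := by
        rcases Nat.eq_zero_or_pos m with h0 | h0
        · rw [h0] at hm
          exact absurd (ArithmeticFunction.map_zero) hm
        · exact h0
      have h3 : 2 ^ T''.card ≤ 2 ^ 8 := Nat.pow_le_pow_right (by norm_num) ((card_le_univ T'').trans (by simp))
      have h4 : 2 ^ T''.card * m ≤ 2 ^ 8 * m := Nat.mul_le_mul_right _ h3
      rw [mem_Ioc]
      constructor
      · have h5 := h1.2
        omega
      · rw [← h2]; exact h1.1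
    rw [hprod, bil _ _ w ⌊3 * X⌋₊ hw0 (Ioc (2 ^ (a - 9)) (2 ^ 9 * 2 ^ (a - 9)))
      (Ioc (2 ^ (b' - 9)) (2 ^ 9 * 2 ^ (b' - 9))) (fun m hm => by rw [mem_Ioc] at hm; omega)
      (fun m hm => by rw [mem_Ioc] at hm; omega) (hmem T' a had ha9) (hmem T'ᶜ b' hbd' hb9)]
    have hbig := bigblock hX0 E (fun m => (∏ i ∈ T', rst (F i) (κ i)) m)
      (fun m => (∏ i ∈ T'ᶜ, rst (F i) (κ i)) m) T hT0 (2 ^ (a - 9)) (2 ^ (b' - 9)) 9 9 (by
        intro i _ j _ hc1 hc2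
        obtain ⟨M, hM⟩ : ∃ M, M = 2 ^ i * 2 ^ (a - 9) := ⟨_, rfl⟩
        obtain ⟨N, hN⟩ : ∃ N, N = 2 ^ j * 2 ^ (b' - 9) := ⟨_, rfl⟩
        rw [← hM, ← hN] at hc1 hc2 ⊢
        have hMr : X ^ (3 / 8 - δ : ℝ) ≤ M := ha'.trans (by
          rw [hM]; exact_mod_cast Nat.le_mul_of_pos_left _ (by positivity))
        have hNr : X ^ (3 / 8 - δ : ℝ) ≤ N := hb'.trans (by
          rw [hN]; exact_mod_cast Nat.le_mul_of_pos_left _ (by positivity))
        by_cases hcN : (N : ℝ) ≤ 16 * X ^ (1 / 2 : ℝ)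
        · obtain ⟨g, hg⟩ := hG.1 M N hc1 hc2 hNr hcN
          exact b1 M N Q g hQ hg S hS1 hPrX c hc _ _
            (fun m hm => hbd T' m (by rw [mem_Ioc] at hm; omega))
            (fun n hn => hbd T'ᶜ n (by rw [mem_Ioc] at hn; omega))
        · have hcM : (M : ℝ) ≤ 16 * X ^ (1 / 2 : ℝ) := by
            rw [not_le] at hcN
            have hxx : X ^ (1 / 2 : ℝ) * X ^ (1 / 2 : ℝ) = X := by
              rw [← Real.rpow_add hX0]
              norm_num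
            have hxp : 0 < X ^ (1 / 2 : ℝ) := by positivity
            by_contra hcon
            rw [not_le] at hcon
            nlinarith [mul_pos hxp hxp]
          obtain ⟨g, hg⟩ := hG.1 N M (by rw [mul_comm]; exact hc1) (by rw [mul_comm]; exact hc2) hMr hcM
          have h1 := b1 N M Q g hQ hg S hS1 hPrX c hc
            (fun m => (∏ i ∈ T'ᶜ, rst (F i) (κ i)) m) (fun m => (∏ i ∈ T', rst (F i) (κ i)) m)
            (fun m hm => hbd T'ᶜ m (by rw [mem_Ioc] at hm; omega))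
            (fun n hn => hbd T' n (by rw [mem_Ioc] at hn; omega))
          rw [sum_comm] at h1
          refine le_trans (le_of_eq ?_) h1
          congr 1
          refine sum_congr rfl fun m _ => sum_congr rfl fun n _ => ?_
          rw [mul_comm n m]
          ring)
    refine le_trans (le_of_eq ?_) (hbig.trans (le_of_eq ?_))
    · congr 1
      refine sum_congr rfl fun m _ => sum_congr rfl fun n _ => ?_
      simp only [hw]
      ring
    · push_cast; ring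
  by_cases hbig : ∃ i, 5 / 16 < x i
  swap
  · push Not at hbig
    obtain ⟨T', ht1, ht2⟩ := comb x hx0 hbig hsum1
    exact typeII T' ht1 ht2
  obtain ⟨i0, hi0⟩ := hbig
  by_cases hmid : 3 / 8 ≤ x i0 ∧ x i0 ≤ 5 / 8
  · exact typeII {i0} (by rw [sum_singleton]; exact hmid.1) (by rw [sum_singleton]; exact hmid.2)
  rcases hF1 i0 (by rw [hx1]; exact Real.rpow_lt_rpow_of_exponent_lt hX1 hi0) with hf | hz
  swap
  · have h0 : ∏ i, rst (F i) (κ i) = 0 := prod_eq_zero (mem_univ i0) hz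
    rw [h0]
    simp only [ArithmeticFunction.zero_apply, zero_mul, sum_const_zero, abs_zero]
    positivity
  obtain ⟨f, hf, hfF⟩ := hf
  -- the smooth variable
  obtain ⟨k, hk⟩ : ∃ k, k = κ i0 := ⟨_, rfl⟩
  have hkX : X ^ x i0 = 2 ^ k := by rw [hk, hx1]
  have hk1 : 1 ≤ k := by
    by_contra hcon
    have h0 : k = 0 := by omega
    rw [h0, pow_zero] at hkX
    have h1 : X ^ (5 / 16 : ℝ) < X ^ x i0 := Real.rpow_lt_rpow_of_exponent_lt hX1 hi0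
    have h2 : 1 ≤ X ^ (5 / 16 : ℝ) := Real.one_le_rpow hX1.le (by norm_num)
    linarith
  have hk2 : 2 ^ k = 2 * 2 ^ (k - 1) := by rw [← pow_succ']; congr 1; omega
  have hk2r : (2 : ℝ) ^ k = 2 * 2 ^ (k - 1) := by exact_mod_cast hk2
  have hGmem : ∀ m, rst (F i0) k m ≠ 0 → m ∈ Ioc (2 ^ (k - 1)) (2 * 2 ^ (k - 1)) := by
    intro m hm
    rw [rst_apply] at hm
    have h1 : 2 ^ k < 2 * m ∧ m ≤ 2 ^ k := by
      by_contra hcon
      rw [if_neg hcon] at hm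
      exact hm rfl
    rw [mem_Ioc]
    omega
  have hGf : ∀ m ∈ Ioc (2 ^ (k - 1)) (2 * 2 ^ (k - 1)), rst (F i0) k m = f m := by
    intro m hm
    rw [mem_Ioc] at hm
    have h0 : 0 < 2 ^ (k - 1) := by positivity
    rw [rst_apply, if_pos (by omega), hfF m (by omega)]
  have hprod : ∏ i, rst (F i) (κ i) = (∏ i ∈ univ.erase i0, rst (F i) (κ i)) * rst (F i0) k := by
    rw [hk, mul_comm, mul_prod_erase univ (fun i => rst (F i) (κ i)) (mem_univ i0)]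
  obtain ⟨s', hs'⟩ : ∃ s', s' = ∑ i ∈ univ.erase i0, κ i := ⟨_, rfl⟩
  have hss : (2 : ℝ) ^ s' * 2 ^ k = 2 ^ (∑ i, κ i) := by
    rw [hs', hk, ← pow_add, add_comm, add_sum_erase univ κ (mem_univ i0)]
  have hpos' : ∀ m : ℕ, (∏ i ∈ univ.erase i0, rst (F i) (κ i)) m ≠ 0 → 0 < m := by
    intro m hm
    rcases Nat.eq_zero_or_pos m with h0 | h0
    · rw [h0] at hm
      exact absurd (ArithmeticFunction.map_zero) hm
    · exact h0
  by_cases hlong : 5 / 8 < x i0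
  · -- long variable
    have hM1 : ((2 ^ s' : ℕ) : ℝ) ≤ X ^ (2 / 5 : ℝ) := by
      push_cast
      have h1 : X ^ (5 / 8 : ℝ) ≤ 2 ^ k := by
        rw [← hkX]; exact Real.rpow_le_rpow_of_exponent_le hX1.le hlong.le
      have h2 : (2 : ℝ) ^ s' * X ^ (5 / 8 : ℝ) ≤ 768 * X :=
        (mul_le_mul_of_nonneg_left h1 (by positivity)).trans (hss.le.trans hs2)
      have h3 : X = X ^ (3 / 8 : ℝ) * X ^ (5 / 8 : ℝ) := by
        rw [← Real.rpow_add hX0]; norm_num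
      have h5 : 0 < X ^ (5 / 8 : ℝ) := Real.rpow_pos_of_pos hX0 _
      have h6 : (2 : ℝ) ^ s' ≤ 768 * X ^ (3 / 8 : ℝ) := by
        refine le_of_mul_le_mul_right ?_ h5
        rw [mul_assoc, ← h3]
        exact h2
      refine h6.trans ?_
      calc 768 * X ^ (3 / 8 : ℝ) ≤ X ^ (1 / 40 : ℝ) * X ^ (3 / 8 : ℝ) :=
            mul_le_mul_of_nonneg_right e2 (by positivity)
        _ = X ^ (2 / 5 : ℝ) := by rw [← Real.rpow_add hX0]; norm_num
    have hN8 : ((2 ^ (k - 1) : ℕ) : ℝ) ≤ 8 * X := by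
      push_cast
      have h1 := hκ i0
      rw [← hk] at h1
      linarith
    rw [hprod, bil _ _ w ⌊3 * X⌋₊ hw0 (Icc 1 (2 ^ s')) (Ioc (2 ^ (k - 1)) (2 * 2 ^ (k - 1)))
      (fun m hm => by rw [mem_Icc] at hm; omega) (fun m hm => by rw [mem_Ioc] at hm; omega)
      (fun m hm => by
        rw [mem_Icc]
        exact ⟨hpos' m hm, by rw [hs']; exact (prod_supp F κ _ m hm).1⟩) hGmem]
    have h1 := b3 S (fun q hq => ⟨(hS q hq).1, hPr q hq⟩) c hc (2 ^ s') (2 ^ (k - 1)) hM1 hN8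
      (fun m => (∏ i ∈ univ.erase i0, rst (F i) (κ i)) m)
      (fun m hm => hbd _ m (by rw [mem_Icc] at hm; omega)) f hf
    refine le_trans (le_of_eq ?_) (h1.trans (hT9.trans (by linarith)))
    congr 1
    refine sum_congr rfl fun m _ => sum_congr rfl fun n hn => ?_
    rw [hGf n hn]
    simp only [hw]
    ring
  · -- smooth variable of medium size
    have hx38 : x i0 < 3 / 8 := by
      by_contra hcon
      exact hmid ⟨not_lt.1 hcon, not_lt.1 hlong⟩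
    have hs5 : X ^ (3 / 8 : ℝ) ≤ 2 ^ s' := by
      have h1 : (2 : ℝ) ^ k ≤ X ^ (3 / 8 : ℝ) := by
        rw [← hkX]; exact Real.rpow_le_rpow_of_exponent_le hX1.le hx38.le
      have h3 : X = X ^ (5 / 8 : ℝ) * X ^ (3 / 8 : ℝ) := by
        rw [← Real.rpow_add hX0]; norm_num
      have h5 : 0 < X ^ (3 / 8 : ℝ) := Real.rpow_pos_of_pos hX0 _
      have h4 : X ^ (3 / 8 : ℝ) ≤ X ^ (5 / 8 : ℝ) := Real.rpow_le_rpow_of_exponent_le hX1.le (by norm_num)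
      refine h4.trans ?_
      by_contra hcon
      rw [not_le] at hcon
      have h6 : (2 : ℝ) ^ s' * 2 ^ k ≤ X ^ (5 / 8 : ℝ) * X ^ (3 / 8 : ℝ) :=
        mul_le_mul hcon.le h1 (by positivity) (by positivity)
      linarith
    have hs9 : 9 ≤ s' := by
      by_contra hcon
      have h2 : s' ≤ 9 := by omega
      have h3 : (2 : ℝ) ^ s' ≤ 2 ^ 9 := pow_le_pow_right₀ (by norm_num) h2
      linarith
    have hmem : ∀ m, (∏ i ∈ univ.erase i0, rst (F i) (κ i)) m ≠ 0 →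
        m ∈ Ioc (2 ^ (s' - 9)) (2 ^ 9 * 2 ^ (s' - 9)) := by
      intro m hm
      have h1 := prod_supp F κ _ m hm
      rw [← hs'] at h1
      have h2 : 2 ^ s' = 2 ^ 9 * 2 ^ (s' - 9) := by rw [← pow_add]; congr 1; omega
      have hm0 := hpos' m hm
      have h3 : 2 ^ (univ.erase i0).card ≤ 2 ^ 8 :=
        Nat.pow_le_pow_right (by norm_num) ((card_le_univ _).trans (by simp))
      have h4 : 2 ^ (univ.erase i0).card * m ≤ 2 ^ 8 * m := Nat.mul_le_mul_right _ h3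
      rw [mem_Ioc]
      constructor
      · have h5 := h1.2
        omega
      · rw [← h2]; exact h1.1
    have hN1 : X ^ (5 / 16 - δ : ℝ) ≤ ((2 ^ (k - 1) : ℕ) : ℝ) := by
      push_cast
      have h1 : X ^ (5 / 16 : ℝ) ≤ 2 ^ k := by
        rw [← hkX]; exact Real.rpow_le_rpow_of_exponent_le hX1.le hi0.le
      have h2 : 0 < X ^ (5 / 16 - δ : ℝ) := Real.rpow_pos_of_pos hX0 _
      linarith
    have hN2 : ((2 ^ (k - 1) : ℕ) : ℝ) ≤ X ^ (3 / 8 + δ : ℝ) := by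
      push_cast
      have h1 : (2 : ℝ) ^ k ≤ X ^ (3 / 8 + δ : ℝ) := by
        rw [← hkX]; exact Real.rpow_le_rpow_of_exponent_le hX1.le (by linarith)
      have h2 : (0 : ℝ) < 2 ^ (k - 1) := by positivity
      linarith
    rw [hprod, bil _ _ w ⌊3 * X⌋₊ hw0 (Ioc (2 ^ (s' - 9)) (2 ^ 9 * 2 ^ (s' - 9)))
      (Ioc (2 ^ (k - 1)) (2 * 2 ^ (k - 1))) (fun m hm => by rw [mem_Ioc] at hm; omega)
      (fun m hm => by rw [mem_Ioc] at hm; omega) hmem hGmem]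
    have hbig := bigblock hX0 E (fun m => (∏ i ∈ univ.erase i0, rst (F i) (κ i)) m)
      f T hT0 (2 ^ (s' - 9)) (2 ^ (k - 1)) 9 1 (by
        intro i _ j hj hc1 hc2
        have hj0 : j = 0 := by omega
        rw [hj0, pow_zero, one_mul] at hc1 hc2 ⊢
        obtain ⟨M, hM⟩ : ∃ M, M = 2 ^ i * 2 ^ (s' - 9) := ⟨_, rfl⟩
        rw [← hM] at hc1 hc2 ⊢
        obtain ⟨g, hg4, hg⟩ := hG.2 M (2 ^ (k - 1)) hc1 hc2 hN1 hN2
        exact b2 M (2 ^ (k - 1)) Q g hg4 hQ hg S hS2 hPrX c hc _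
          (fun m hm => hbd _ m (by rw [mem_Ioc] at hm; omega)) f hf)
    refine le_trans (le_of_eq ?_) (hbig.trans ?_)
    · congr 1
      rw [pow_one]
      refine sum_congr rfl fun m _ => sum_congr rfl fun n hn => ?_
      rw [hGf n hn]
      simp only [hw]
      ring
    · push_cast
      linarith

end

/-- the theorem for the von Mangoldt function -/
theorem lam3 (hT2 : S_TII) (hTS : S_TIIS) : S_LAM3 := by
  intro K h W b H δ hδ
  obtain ⟨ε1, hε1, H1⟩ := blk2w hT2 K h W b H δ hδ 16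
  obtain ⟨ε2, hε2, H2⟩ := blkSw hTS K h W b H δ hδ 16
  refine ⟨min ε1 ε2, lt_min hε1 hε2, fun A => ?_⟩
  obtain ⟨B1, HB1⟩ := H1 (A + 18)
  obtain ⟨B2, HB2⟩ := H2 (A + 18)
  refine ⟨max B1 B2, fun B hB => ?_⟩
  have ev1 : ∀ᶠ X : ℝ in atTop, (512 : ℝ) ≤ X ^ δ := (tendsto_rpow_atTop hδ).eventually_ge_atTop 512
  have ev2 : ∀ᶠ X : ℝ in atTop, (768 : ℝ) ≤ X ^ (1 / 40 : ℝ) :=
    (tendsto_rpow_atTop (by norm_num)).eventually_ge_atTop 768
  have ev3 : ∀ᶠ X : ℝ in atTop, (16 : ℝ) ≤ X ^ (1 / 16 : ℝ) :=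
    (tendsto_rpow_atTop (by norm_num)).eventually_ge_atTop 16
  have ev4 : ∀ᶠ X : ℝ in atTop, (2 : ℝ) ^ K ≤ X ^ (1 / 100 : ℝ) :=
    (tendsto_rpow_atTop (by norm_num)).eventually_ge_atTop _
  have ev5 : ∀ᶠ X : ℝ in atTop, Real.log X ^ (A + 18) ≤ X ^ (1 / 100 : ℝ) := by
    have h1 := (isLittleO_log_rpow_rpow_atTop ((A + 18 : ℕ) : ℝ) (show (0 : ℝ) < 1 / 100 by norm_num)).bound
      (show (0 : ℝ) < 1 by norm_num)
    filter_upwards [h1, eventually_ge_atTop 1] with X h2 hX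
    have h3 : 0 ≤ Real.log X := Real.log_nonneg hX
    rw [Real.rpow_natCast, Real.norm_of_nonneg (by positivity), one_mul,
      Real.norm_of_nonneg (by positivity)] at h2
    exact h2
  filter_upwards [HB1 B ((le_max_left _ _).trans hB), HB2 B ((le_max_right _ _).trans hB), long K h W b H 16 B,
    ev1, ev2, ev3, ev4, ev5, Real.tendsto_log_atTop.eventually_ge_atTop (40 : ℝ), eventually_ge_atTop (3 : ℝ)]
    with X b1 b2 b3 e1 e2 e3 e4 e5 hL40 hX3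
  intro Q hQ hQX hG S hS c hc
  have hX0 : 0 < X := by linarith
  have hX1 : 1 < X := by linarith
  obtain ⟨L, hL⟩ : ∃ L, L = Real.log X := ⟨_, rfl⟩
  have hL40' : 40 ≤ L := by rw [hL]; exact hL40
  have hL0 : 0 < L := by linarith
  obtain ⟨T, hT⟩ : ∃ T, T = X / (Real.log X) ^ (A + 18) := ⟨_, rfl⟩
  have hT0 : 0 ≤ T := by rw [hT, ← hL]; positivity
  have hT9 : X ^ (99 / 100 : ℝ) ≤ T := by
    rw [hT, le_div_iff₀ (by rw [← hL]; positivity)]
    calc X ^ (99 / 100 : ℝ) * Real.log X ^ (A + 18) ≤ X ^ (99 / 100 : ℝ) * X ^ (1 / 100 : ℝ) :=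
          mul_le_mul_of_nonneg_left e5 (by positivity)
      _ = X := by rw [← Real.rpow_add hX0]; norm_num
  rw [← hT] at b1 b2
  have hPr : ∀ q ∈ S, (Pr q : ℝ) ≤ X ^ (14 / 25 : ℝ) := by
    intro q hq
    calc (Pr q : ℝ) = ∏ j, (q j : ℝ) := by unfold Pr; rw [Nat.cast_prod]
      _ ≤ ∏ j, (2 * Q j) := Finset.prod_le_prod (fun _ _ => by positivity) fun j _ => ((hS q hq).2.1 j).2
      _ = 2 ^ K * ∏ j, Q j := by
          rw [Finset.prod_mul_distrib, Finset.prod_const, Finset.card_univ, Fintype.card_fin]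
      _ ≤ X ^ (1 / 100 : ℝ) * X ^ (11 / 20 : ℝ) :=
          mul_le_mul e4 hQX (prod_nonneg fun j _ => (hQ j).le) (by positivity)
      _ = X ^ (14 / 25 : ℝ) := by rw [← Real.rpow_add hX0]; norm_num
  set Y : ℕ := ⌊3 * X⌋₊ with hY
  have hY1 : Y ≠ 0 := (Nat.floor_pos.2 (by linarith)).ne'
  have hYX : (Y : ℝ) ≤ 3 * X := Nat.floor_le (by linarith)
  obtain ⟨R, hR⟩ : ∃ R, R = Nat.log 2 Y + 1 := ⟨_, rfl⟩
  have hYR : Y ≤ 2 ^ R := by rw [hR]; exact (Nat.lt_pow_succ_log_self (by norm_num) _).le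
  have hRX : (2 : ℝ) ^ R ≤ 6 * X := by
    have h1 : (2 : ℝ) ^ (Nat.log 2 Y) ≤ Y := by exact_mod_cast Nat.pow_log_le_self 2 hY1
    rw [hR, pow_succ]
    linarith
  have hRL : ((R + 1 : ℕ) : ℝ) ≤ 2 * L := by
    have h3 := Real.log_le_log (by positivity) hRX
    rw [Real.log_pow, Real.log_mul (by norm_num) hX0.ne', ← hL] at h3
    have h4 := Real.log_two_gt_d9
    have h5 : (R : ℝ) * 0.69 ≤ R * Real.log 2 := mul_le_mul_of_nonneg_left (by linarith) (Nat.cast_nonneg _)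
    have h6 : Real.log 6 ≤ 3 := by
      have : Real.log 6 ≤ Real.log 8 := Real.log_le_log (by norm_num) (by norm_num)
      have h8 : Real.log 8 = 3 * Real.log 2 := by
        rw [show (8 : ℝ) = 2 ^ 3 by norm_num, Real.log_pow]; norm_num
      have := Real.log_two_lt_d9
      linarith
    push_cast
    linarith
  obtain ⟨z, hz⟩ : ∃ z, z = ⌊(3 * X) ^ (1 / 4 : ℝ)⌋₊ + 1 := ⟨_, rfl⟩
  have hz1 : 1 ≤ z := by omega
  have h3X : 0 < 3 * X := by linarith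
  have hz2 : (z : ℝ) ≤ 4 * X ^ (1 / 4 : ℝ) := by
    have h1 : (⌊(3 * X) ^ (1 / 4 : ℝ)⌋₊ : ℝ) ≤ (3 * X) ^ (1 / 4 : ℝ) := Nat.floor_le (by positivity)
    have h2 : (3 * X) ^ (1 / 4 : ℝ) = 3 ^ (1 / 4 : ℝ) * X ^ (1 / 4 : ℝ) := Real.mul_rpow (by norm_num) hX0.le
    have h3 : (3 : ℝ) ^ (1 / 4 : ℝ) ≤ 3 ^ (1 : ℝ) := Real.rpow_le_rpow_of_exponent_le (by norm_num) (by norm_num)
    rw [Real.rpow_one] at h3
    have h4 : 1 ≤ X ^ (1 / 4 : ℝ) := Real.one_le_rpow hX1.le (by norm_num)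
    rw [hz]
    push_cast
    nlinarith
  have hzY : ∀ n ∈ Icc 1 Y, n < (z + 1) ^ 4 := by
    intro n hn
    rw [mem_Icc] at hn
    have h1 : (n : ℝ) ≤ 3 * X := (Nat.cast_le.2 hn.2).trans hYX
    have h2 : (3 * X) ^ (1 / 4 : ℝ) < z := by
      rw [hz]; push_cast; exact Nat.lt_floor_add_one _
    have h3 : 3 * X = ((3 * X) ^ (1 / 4 : ℝ)) ^ 4 := by
      rw [← Real.rpow_natCast, ← Real.rpow_mul h3X.le]; norm_num
    have h4 : ((3 * X) ^ (1 / 4 : ℝ)) ^ 4 < ((z : ℝ) + 1) ^ 4 :=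
      pow_lt_pow_left₀ (by linarith) (by positivity) (by norm_num)
    have h5 : (n : ℝ) < ((z + 1 : ℕ) : ℝ) ^ 4 := by push_cast; linarith
    exact_mod_cast h5
  set E := EE h W b (D0 X B) S c with hE
  set w : ℕ → ℝ := fun n => Phi ((n : ℝ) / X) * E n with hw
  -- one family
  have hfam : ∀ j : ℕ, |∑ n ∈ Icc 1 Y, (∏ i, fam z j i) n * w n| ≤ (2 * L) ^ 8 * (81 * T) := by
    intro j
    rw [decomp (fam z j) w Y R hYR]
    refine (abs_sum_le_sum_abs _ _).trans ?_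
    have hone : ∀ κ ∈ Fintype.piFinset (fun _ : Fin 8 => range (R + 1)),
        |∑ n ∈ Icc 1 Y, (∏ i, rst (fam z j i) (κ i)) n * w n| ≤ 81 * T := by
      intro κ hκ
      rw [Fintype.mem_piFinset] at hκ
      have hκ6 : ∀ i, (2 : ℝ) ^ κ i ≤ 6 * X := by
        intro i
        have h1 := hκ i
        rw [mem_range] at h1
        exact (pow_le_pow_right₀ (by norm_num) (by omega)).trans hRX
      refine piece (Q := Q) (A' := 0) hδ hL (by linarith) hX3 hT0 hT9 b1 b2 b3 e1 e2 hQ hG hS hPr hc ?_ hκ6 ?_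
      · intro i n
        have hL1 : (1 : ℝ) ≤ L ^ 2 := one_le_pow₀ (by linarith)
        have h0 : (0 : ℝ) ≤ L ^ 2 := by positivity
        rw [rst_apply]
        split_ifs with hcond
        · have hone' : |(1 : ArithmeticFunction ℝ) n| ≤ L ^ 2 := by
            rw [ArithmeticFunction.one_apply]
            split_ifs
            · rw [abs_one]; exact hL1
            · rw [abs_zero]; exact h0
          unfold fam
          split_ifs
          · rw [Mz_apply]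
            split_ifs
            · refine le_trans ?_ hL1
              exact_mod_cast ArithmeticFunction.abs_moebius_le_one
            · rw [abs_zero]; exact h0
          · exact hone'
          · rw [zr_apply (by omega), abs_one]; exact hL1
          · exact hone'
          · rw [ArithmeticFunction.log_apply, abs_of_nonneg (Real.log_natCast_nonneg _)]
            have hn1 : 0 < n := by omega
            have h5 : (n : ℝ) ≤ 6 * X := by
              refine le_trans ?_ (hκ6 i)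
              exact_mod_cast hcond.2
            have h6 := Real.log_le_log (by exact_mod_cast hn1) h5
            rw [Real.log_mul (by norm_num) hX0.ne', ← hL] at h6
            have h7 : Real.log 6 ≤ 3 := by
              have : Real.log 6 ≤ Real.log 8 := Real.log_le_log (by norm_num) (by norm_num)
              have h8 : Real.log 8 = 3 * Real.log 2 := by
                rw [show (8 : ℝ) = 2 ^ 3 by norm_num, Real.log_pow]; norm_num
              have := Real.log_two_lt_d9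
              linarith
            nlinarith
        · rw [abs_zero]; exact h0
      · intro i hi
        have hbig : ∀ n : ℕ, 2 ^ κ i < 2 * n → 2 ≤ n := by
          intro n hn
          have h1 : (1 : ℝ) ≤ X ^ (5 / 16 : ℝ) := Real.one_le_rpow hX1.le (by norm_num)
          have h2 : (1 : ℝ) < ((2 ^ κ i : ℕ) : ℝ) := by push_cast; linarith
          have h3 : 1 < 2 ^ κ i := by exact_mod_cast h2
          omega
        have hone0 : rst (1 : ArithmeticFunction ℝ) (κ i) = 0 := by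
          ext n
          rw [rst_apply, ArithmeticFunction.zero_apply]
          split_ifs with hcond
          · rw [ArithmeticFunction.one_apply, if_neg]
            have := hbig n hcond.1
            omega
          · rfl
        unfold fam
        split_ifs
        · right
          ext n
          rw [rst_apply, ArithmeticFunction.zero_apply]
          split_ifs with hcond
          · rw [Mz_apply, if_neg]
            intro hnz
            have h1 : ((2 ^ κ i : ℕ) : ℝ) < 2 * n := by exact_mod_cast hcond.1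
            have h2 : (n : ℝ) ≤ z := by exact_mod_cast hnz
            push_cast at h1
            have h3 : 8 * X ^ (1 / 4 : ℝ) ≤ X ^ (5 / 16 : ℝ) := by
              calc 8 * X ^ (1 / 4 : ℝ) ≤ X ^ (1 / 16 : ℝ) * X ^ (1 / 4 : ℝ) :=
                    mul_le_mul_of_nonneg_right (by linarith) (by positivity)
                _ = X ^ (5 / 16 : ℝ) := by rw [← Real.rpow_add hX0]; norm_num
            linarith
          · rfl
        · right; exact hone0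
        · left
          exact ⟨fun _ => 1, Or.inl fun _ => rfl, fun n hn => zr_apply (by omega)⟩
        · right; exact hone0
        · left
          exact ⟨fun l => Real.log l, Or.inr fun _ => rfl, fun n _ => ArithmeticFunction.log_apply⟩
    refine (sum_le_sum hone).trans ?_
    rw [sum_const, nsmul_eq_mul, Fintype.card_piFinset, prod_const, card_range, card_univ, Fintype.card_fin,
      Nat.cast_pow]
    exact mul_le_mul_of_nonneg_right (pow_le_pow_left₀ (Nat.cast_nonneg _) hRL 8) (by linarith)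
  have hmain : ∑ q ∈ S, c q * ∑ n ∈ Icc 1 Y, H378R2.Phi (n / X) * ArithmeticFunction.vonMangoldt n *
      dl h W b (D0 X B) q n = ∑ n ∈ Icc 1 Y, ArithmeticFunction.vonMangoldt n * w n := by
    simp only [hw, hE]
    unfold EE
    simp only [mul_sum]
    rw [sum_comm]
    refine sum_congr rfl fun n _ => sum_congr rfl fun q _ => ?_
    ring
  have hhb : ∑ n ∈ Icc 1 Y, ArithmeticFunction.vonMangoldt n * w n =
      4 * (∑ n ∈ Icc 1 Y, (∏ i, fam z 1 i) n * w n) - 6 * (∑ n ∈ Icc 1 Y, (∏ i, fam z 2 i) n * w n) +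
      4 * (∑ n ∈ Icc 1 Y, (∏ i, fam z 3 i) n * w n) - ∑ n ∈ Icc 1 Y, (∏ i, fam z 4 i) n * w n := by
    rw [mul_sum, mul_sum, mul_sum, ← sum_sub_distrib, ← sum_add_distrib, ← sum_sub_distrib]
    refine sum_congr rfl fun n hn => ?_
    rw [hb4 z n hz1 (hzY n hn)]
    ring
  rw [hmain, hhb]
  have f1 := abs_le.1 (hfam 1)
  have f2 := abs_le.1 (hfam 2)
  have f3 := abs_le.1 (hfam 3)
  have f4 := abs_le.1 (hfam 4)
  have hfin : 15 * ((2 * L) ^ 8 * (81 * T)) ≤ X / Real.log X ^ A := by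
    have h1 : 15 * ((2 * L) ^ 8 * (81 * T)) = (15 * 2 ^ 8 * 81) * (X / L ^ A) / L ^ 10 := by
      rw [hT, ← hL, mul_pow, show A + 18 = A + 8 + 10 by ring, pow_add, pow_add]
      field_simp
    rw [h1, ← hL, div_le_iff₀ (by positivity), mul_comm]
    refine mul_le_mul_of_nonneg_left ?_ (by positivity)
    calc (15 * 2 ^ 8 * 81 : ℝ) ≤ 40 ^ 10 := by norm_num
      _ ≤ L ^ 10 := pow_le_pow_left₀ (by norm_num) hL40' 10
  rw [abs_le]
  constructor <;> linarith [f1.1, f1.2, f2.1, f2.2, f3.1, f3.2, f4.1, f4.2]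

end Pool.Agent.J4H35.LM
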